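import Mathlib

/-!
Separation of segments and of thin regions around segments in the plane.
-/

set_option autoImplicit false

namespace Pool.Agent.R538.PC

/-- the affine functional `a x + b y + c` -/
def ell (a b c : ℝ) (p : ℝ × ℝ) : ℝ := a * p.1 + b * p.2 + c

/-- The two segments are separated by a line that meets each of them in at most an end. -/
def Sep (e₁ e₂ f₁ f₂ : ℝ × ℝ) : Prop :=
  ∃ a b c : ℝ, 0 ≤ ell a b c e₁ ∧ 0 ≤ ell a b c e₂ ∧ ell a b c f₁ ≤ 0 ∧ ell a b c f₂ ≤ 0 ∧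
    (0 < ell a b c e₁ ∨ 0 < ell a b c e₂) ∧ (ell a b c f₁ < 0 ∨ ell a b c f₂ < 0)

theorem ell_comb (a b c t : ℝ) (p q : ℝ × ℝ) :
    ell a b c (p + t • (q - p)) = (1 - t) * ell a b c p + t * ell a b c q := by
  simp only [ell, Prod.fst_add, Prod.snd_add, Prod.smul_fst, Prod.smul_snd, Prod.fst_sub,
    Prod.snd_sub, smul_eq_mul]
  ring

theorem mem_seg {x y p : ℝ × ℝ} :
    p ∈ segment ℝ x y ↔ ∃ t : ℝ, 0 ≤ t ∧ t ≤ 1 ∧ p = x + t • (y - x) := by
  rw [segment_eq_image']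
  constructor
  · rintro ⟨t, ⟨h0, h1⟩, rfl⟩
    exact ⟨t, h0, h1, rfl⟩
  · rintro ⟨t, h0, h1, rfl⟩
    exact ⟨t, ⟨h0, h1⟩, rfl⟩

theorem Sep.symm {e₁ e₂ f₁ f₂ : ℝ × ℝ} (h : Sep e₁ e₂ f₁ f₂) : Sep f₁ f₂ e₁ e₂ := by
  obtain ⟨a, b, c, h1, h2, h3, h4, h5, h6⟩ := h
  refine ⟨-a, -b, -c, ?_, ?_, ?_, ?_, ?_, ?_⟩
  all_goals simp only [ell] at *
  · linarith
  · linarith
  · linarith
  · linarith
  · rcases h6 with h6 | h6
    · left; linarith
    · right; linarith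
  · rcases h5 with h5 | h5
    · left; linarith
    · right; linarith

/-- the thin region around the segment `u v` -/
def Reg (ε : ℝ) (u v : ℝ × ℝ) : Set (ℝ × ℝ) :=
  {q | ∃ s t : ℝ, 0 ≤ s ∧ s ≤ 1 ∧ |t| ≤ ε * s ∧ |t| ≤ ε * (1 - s) ∧
    q = u + s • (v - u) + t • (-(v - u).2, (v - u).1)}

theorem ell_reg (a b c s t : ℝ) (u v : ℝ × ℝ) :
    ell a b c (u + s • (v - u) + t • (-(v - u).2, (v - u).1)) =
      (1 - s) * ell a b c u + s * ell a b c v + t * (b * (v - u).1 - a * (v - u).2) := by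
  simp only [ell, Prod.fst_add, Prod.snd_add, Prod.smul_fst, Prod.smul_snd, Prod.fst_sub,
    Prod.snd_sub, smul_eq_mul]
  ring

theorem seg_sub_reg {ε : ℝ} (hε : 0 ≤ ε) (u v : ℝ × ℝ) : segment ℝ u v ⊆ Reg ε u v := by
  intro p hp
  obtain ⟨t, h0, h1, rfl⟩ := mem_seg.1 hp
  exact ⟨t, 0, h0, h1, by rw [abs_zero]; positivity, by rw [abs_zero]; nlinarith, by simp⟩

/-- A functional that is nonnegative at the two ends and positive at one of them, is nonnegative on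
the region if the region is thin, and vanishes only at an end. -/
theorem reg_nonneg {a b c : ℝ} {u v : ℝ × ℝ} (hu : 0 ≤ ell a b c u) (hv : 0 ≤ ell a b c v)
    (hp : 0 < ell a b c u ∨ 0 < ell a b c v) {ε : ℝ} (hε : 0 < ε)
    (hs : 2 * (ε * |b * (v - u).1 - a * (v - u).2|) < ell a b c u + ell a b c v)
    {q : ℝ × ℝ} (hq : q ∈ Reg ε u v) :
    0 ≤ ell a b c q ∧ (ell a b c q = 0 → q = u ∨ q = v) := by
  obtain ⟨s, t, h0, h1, h2, h3, rfl⟩ := hq
  rw [ell_reg]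
  set K := b * (v - u).1 - a * (v - u).2 with hK
  set A := ell a b c u with hA
  set B := ell a b c v with hB
  have htK : -(|t| * |K|) ≤ t * K := by
    rw [← abs_mul]; exact neg_abs_le _
  have hK0 : 0 ≤ |K| := abs_nonneg _
  rcases le_total A B with hAB | hAB
  · have hB1 : 0 < B - ε * |K| := by linarith
    have h4 : |t| * |K| ≤ ε * s * |K| := mul_le_mul_of_nonneg_right h2 hK0
    have h5 : 0 ≤ (1 - s) * A := mul_nonneg (by linarith) hu
    have h6 : 0 ≤ s * (B - ε * |K|) := mul_nonneg h0 hB1.le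
    have h7 : (1 - s) * A + s * (B - ε * |K|) ≤ (1 - s) * A + s * B + t * K := by nlinarith
    refine ⟨by linarith, fun h8 => Or.inl ?_⟩
    have h9 : s * (B - ε * |K|) = 0 := by linarith
    have h10 : s = 0 := by
      rcases mul_eq_zero.1 h9 with h | h
      · exact h
      · exact absurd h hB1.ne'
    have h11 : t = 0 := by
      rw [h10, mul_zero] at h2
      exact abs_eq_zero.1 (le_antisymm h2 (abs_nonneg _))
    rw [h10, h11]
    simp
  · have hA1 : 0 < A - ε * |K| := by linarith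
    have h4 : |t| * |K| ≤ ε * (1 - s) * |K| := mul_le_mul_of_nonneg_right h3 hK0
    have h5 : 0 ≤ s * B := mul_nonneg h0 hv
    have h6 : 0 ≤ (1 - s) * (A - ε * |K|) := mul_nonneg (by linarith) hA1.le
    have h7 : s * B + (1 - s) * (A - ε * |K|) ≤ (1 - s) * A + s * B + t * K := by nlinarith
    refine ⟨by linarith, fun h8 => Or.inr ?_⟩
    have h9 : (1 - s) * (A - ε * |K|) = 0 := by linarith
    have h10 : s = 1 := by
      rcases mul_eq_zero.1 h9 with h | h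
      · linarith
      · exact absurd h hA1.ne'
    have h11 : t = 0 := by
      rw [h10, sub_self, mul_zero] at h3
      exact abs_eq_zero.1 (le_antisymm h3 (abs_nonneg _))
    rw [h10, h11]
    simp

/-- Thin enough for a separation: the regions of both segments meet at most in a common end. -/
def Thin (ε : ℝ) (e₁ e₂ f₁ f₂ : ℝ × ℝ) : Prop :=
  ∀ q, q ∈ Reg ε e₁ e₂ → q ∈ Reg ε f₁ f₂ → (q = e₁ ∨ q = e₂) ∧ (q = f₁ ∨ q = f₂)

theorem ell_neg (a b c : ℝ) (p : ℝ × ℝ) : ell (-a) (-b) (-c) p = - ell a b c p := by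
  simp only [ell]; ring

theorem Sep.thin {e₁ e₂ f₁ f₂ : ℝ × ℝ} (h : Sep e₁ e₂ f₁ f₂) :
    ∃ δ : ℝ, 0 < δ ∧ ∀ ε : ℝ, 0 < ε → ε < δ → Thin ε e₁ e₂ f₁ f₂ := by
  obtain ⟨a, b, c, h1, h2, h3, h4, h5, h6⟩ := h
  set K := |b * (e₂ - e₁).1 - a * (e₂ - e₁).2| with hK
  set L := |(-b) * (f₂ - f₁).1 - (-a) * (f₂ - f₁).2| with hL
  have hK0 : 0 ≤ K := abs_nonneg _
  have hL0 : 0 ≤ L := abs_nonneg _
  have hs : 0 < ell a b c e₁ + ell a b c e₂ := by
    rcases h5 with h | h <;> linarith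
  have ht : 0 < ell (-a) (-b) (-c) f₁ + ell (-a) (-b) (-c) f₂ := by
    rw [ell_neg, ell_neg]
    rcases h6 with h | h <;> linarith
  refine ⟨min ((ell a b c e₁ + ell a b c e₂) / (2 * K + 1))
    ((ell (-a) (-b) (-c) f₁ + ell (-a) (-b) (-c) f₂) / (2 * L + 1)), by positivity, ?_⟩
  intro ε hε hlt q hq hq'
  have g1 : ε * (2 * K + 1) < ell a b c e₁ + ell a b c e₂ :=
    (lt_div_iff₀ (by positivity)).1 (lt_of_lt_of_le hlt (min_le_left _ _))
  have g2 : ε * (2 * L + 1) < ell (-a) (-b) (-c) f₁ + ell (-a) (-b) (-c) f₂ :=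
    (lt_div_iff₀ (by positivity)).1 (lt_of_lt_of_le hlt (min_le_right _ _))
  obtain ⟨p1, p2⟩ := reg_nonneg h1 h2 h5 hε (by nlinarith) hq
  obtain ⟨p3, p4⟩ := reg_nonneg (a := -a) (b := -b) (c := -c) (u := f₁) (v := f₂)
    (by rw [ell_neg]; linarith) (by rw [ell_neg]; linarith)
    (by rw [ell_neg, ell_neg]; rcases h6 with h | h
        · left; linarith
        · right; linarith) hε (by nlinarith) hq'
  rw [ell_neg] at p3 p4
  have hz : ell a b c q = 0 := by linarith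
  exact ⟨p2 hz, p4 (by rw [hz, neg_zero])⟩

/-- Separated segments meet at most in a common end. -/
theorem Sep.inter {e₁ e₂ f₁ f₂ : ℝ × ℝ} (h : Sep e₁ e₂ f₁ f₂) {q : ℝ × ℝ}
    (hq : q ∈ segment ℝ e₁ e₂) (hq' : q ∈ segment ℝ f₁ f₂) :
    (q = e₁ ∨ q = e₂) ∧ (q = f₁ ∨ q = f₂) := by
  obtain ⟨δ, hδ, h1⟩ := h.thin
  exact h1 (δ / 2) (by positivity) (by linarith) q (seg_sub_reg (by positivity) _ _ hq)
    (seg_sub_reg (by positivity) _ _ hq')

/-! ### The integer test -/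

/-- rotation by a right angle -/
def rot (v : ℤ × ℤ) : ℤ × ℤ := (-v.2, v.1)

/-- scalar product -/
def dotZ (a p : ℤ × ℤ) : ℤ := a.1 * p.1 + a.2 * p.2

/-- candidates for the normal vector of a separating line -/
def cands (e₁ e₂ f₁ f₂ : ℤ × ℤ) : List (ℤ × ℤ) :=
  let v := e₂ - e₁
  let w := f₂ - f₁
  [rot v, rot w, v, w, rot v + rot w, rot v - rot w,
    -rot v, -rot w, -v, -w, -(rot v + rot w), -(rot v - rot w)]

/-- the test for one normal vector -/
def sepN (e₁ e₂ f₁ f₂ n : ℤ × ℤ) : Bool :=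
  let a := dotZ n e₁
  let b := dotZ n e₂
  let x := dotZ n f₁
  let y := dotZ n f₂
  decide (max x y ≤ min a b) && decide (max x y < max a b) && decide (min x y < min a b)

/-- the integer test -/
def sepB (e₁ e₂ f₁ f₂ : ℤ × ℤ) : Bool := (cands e₁ e₂ f₁ f₂).any fun n => sepN e₁ e₂ f₁ f₂ n

/-- a point with integer coordinates -/
def toR (p : ℤ × ℤ) : ℝ × ℝ := (p.1, p.2)

theorem toR_inj {p q : ℤ × ℤ} (h : toR p = toR q) : p = q := by
  have h1 := congrArg Prod.fst h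
  have h2 := congrArg Prod.snd h
  simp only [toR, Int.cast_inj] at h1 h2
  exact Prod.ext h1 h2

theorem ell_toR (n : ℤ × ℤ) (c : ℝ) (p : ℤ × ℤ) :
    ell (2 * n.1) (2 * n.2) c (toR p) = 2 * (dotZ n p : ℤ) + c := by
  simp only [ell, toR, dotZ, Int.cast_add, Int.cast_mul]
  ring

theorem sepN_sep {e₁ e₂ f₁ f₂ n : ℤ × ℤ} (h : sepN e₁ e₂ f₁ f₂ n = true) :
    Sep (toR e₁) (toR e₂) (toR f₁) (toR f₂) := by
  simp only [sepN, Bool.and_eq_true, decide_eq_true_eq] at h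
  obtain ⟨⟨h1, h2⟩, h3⟩ := h
  set a := dotZ n e₁ with ha
  set b := dotZ n e₂ with hb
  set x := dotZ n f₁ with hx
  set y := dotZ n f₂ with hy
  refine ⟨2 * n.1, 2 * n.2, -((min a b + max x y : ℤ) : ℝ), ?_⟩
  rw [ell_toR, ell_toR, ell_toR, ell_toR, ← ha, ← hb, ← hx, ← hy]
  have k1 : min a b ≤ a := min_le_left _ _
  have k2 : min a b ≤ b := min_le_right _ _
  have k3 : x ≤ max x y := le_max_left _ _
  have k4 : y ≤ max x y := le_max_right _ _
  have k5 : max a b = a ∨ max a b = b := max_choice a b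
  have k6 : min x y = x ∨ min x y = y := min_choice x y
  have c1 : ((0 : ℤ) : ℝ) = 0 := Int.cast_zero
  refine ⟨?_, ?_, ?_, ?_, ?_, ?_⟩
  · have : 0 ≤ 2 * a + -(min a b + max x y) := by omega
    exact_mod_cast this
  · have : 0 ≤ 2 * b + -(min a b + max x y) := by omega
    exact_mod_cast this
  · have : 2 * x + -(min a b + max x y) ≤ 0 := by omega
    exact_mod_cast this
  · have : 2 * y + -(min a b + max x y) ≤ 0 := by omega
    exact_mod_cast this
  · have : 0 < 2 * a + -(min a b + max x y) ∨ 0 < 2 * b + -(min a b + max x y) := by omega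
    exact_mod_cast this
  · have : 2 * x + -(min a b + max x y) < 0 ∨ 2 * y + -(min a b + max x y) < 0 := by omega
    exact_mod_cast this

theorem sepB_sep {e₁ e₂ f₁ f₂ : ℤ × ℤ} (h : sepB e₁ e₂ f₁ f₂ = true) :
    Sep (toR e₁) (toR e₂) (toR f₁) (toR f₂) := by
  rw [sepB, List.any_eq_true] at h
  obtain ⟨n, -, hn⟩ := h
  exact sepN_sep hn

end Pool.Agent.R538.PC
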