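import Mathlib
import Pool.Agent.R50.PlanarCograph2
import Pool.Agent.R538.PC.Geo

/-!
The gadget and the graph obtained from a skeleton by replacing every link by a gadget.
-/

set_option autoImplicit false

namespace Pool.Agent.R538.PC

open Pool.Agent.R50.PlanarCograph

/-! ### The gadget -/

/-- the edges of the gadget -/
def gE : List (ℕ × ℕ) :=
  [(0, 2), (0, 3), (0, 4), (0, 5), (1, 2), (1, 3), (1, 4), (1, 5), (2, 6), (2, 8), (2, 18),
    (3, 7), (3, 9), (3, 10), (3, 12), (3, 18), (4, 11), (4, 13), (4, 14), (4, 16), (5, 15),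
    (5, 17), (6, 7), (7, 8), (8, 9), (10, 11), (11, 12), (12, 13), (14, 15), (15, 16), (16, 17)]

/-- a colouring of the gadget in which the two terminals have no neighbour of their colour -/
def gC (i : ℕ) : Bool := (1148 : ℕ).testBit i || i == 14

/-- coordinates of a drawing of the gadget -/
def gPos : List (ℤ × ℤ) :=
  [(0, 0), (2000, 0), (1000, -300), (1000, -100), (1000, 100), (1000, 300), (985, -205),
    (995, -195), (1005, -205), (1015, -195), (985, -5), (995, 5), (1005, -5), (1015, 5),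
    (985, 195), (995, 205), (1005, 195), (1015, 205), (1030, -200)]

/-- position in the drawing of the gadget -/
def gp (i : ℕ) : ℤ × ℤ := gPos.getD i (0, 0)

theorem g_edges : ((List.range 19).all fun a => (List.range 19).all fun b =>
    gAdj a b == (gE.contains (a, b) || gE.contains (b, a))) = true := by decide +kernel

theorem g_lt : (gE.all fun e => decide (e.1 < e.2) && decide (e.2 < 19) && decide (2 ≤ e.2)) =
    true := by decide +kernel

theorem g_tri : ((List.range 19).all fun a => (List.range 19).all fun b => !gAdj a b ||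
    (List.range 19).all fun c => !(gAdj a c && gAdj b c)) = true := by decide +kernel

theorem g_clean : ((List.range 19).all fun a => (!gAdj 0 a || gC a) && (!gAdj 1 a || gC a)) =
    true := by decide +kernel

theorem g_col : ((List.range 19).all fun a => (List.range 19).all fun b =>
    !(gAdj a b && (gC a == gC b)) || (List.range 19).all fun c =>
    !(gAdj b c && (gC b == gC c) && !gAdj a c && !(a == c)) || (List.range 19).all fun d =>
    !(gAdj c d && (gC c == gC d) && !gAdj a d && !gAdj b d && !(a == d) && !(b == d))) = true := by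
  decide +kernel

theorem g_sep : (gE.all fun e => gE.all fun f => (e.1 == f.1 && e.2 == f.2) ||
    sepB (gp e.1) (gp e.2) (gp f.1) (gp f.2)) = true := by decide +kernel

theorem g_inj : ((List.range 19).all fun a => (List.range 19).all fun b =>
    a == b || !((gp a).1 == (gp b).1 && (gp a).2 == (gp b).2)) = true := by decide +kernel

theorem g_reg : ((List.range 19).all fun a => decide (0 ≤ (gp a).1) && decide ((gp a).1 ≤ 2000) &&
    decide (|(gp a).2| ≤ (gp a).1) && decide (|(gp a).2| ≤ 2000 - (gp a).1)) = true := by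
  decide +kernel

theorem gAdj_iff {a b : ℕ} (ha : a < 19) (hb : b < 19) :
    gAdj a b = true ↔ (a, b) ∈ gE ∨ (b, a) ∈ gE := by
  have := all_range (all_range g_edges a ha) b hb
  rw [beq_iff_eq] at this
  rw [this, Bool.or_eq_true, List.contains_iff_mem, List.contains_iff_mem]

theorem gE_lt {e : ℕ × ℕ} (h : e ∈ gE) : e.1 < e.2 ∧ e.2 < 19 ∧ 2 ≤ e.2 := by
  have := g_lt
  rw [List.all_eq_true] at this
  have := this e h
  simpa [and_assoc] using this

theorem gAdj_symm {a b : ℕ} (ha : a < 19) (hb : b < 19) (h : gAdj a b = true) :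
    gAdj b a = true := by
  rw [gAdj_iff ha hb] at h
  rw [gAdj_iff hb ha]
  exact h.symm

theorem gC_zero : gC 0 = false := by decide
theorem gC_one : gC 1 = false := by decide

theorem gC_nbr {a b : ℕ} (ha : a < 19) (hb : b < 2) (h : gAdj b a = true) : gC a = true := by
  have := all_range g_clean a ha
  interval_cases b
  · simp only [h, Bool.not_true, Bool.false_or, Bool.and_eq_true] at this
    exact this.1
  · simp only [h, Bool.not_true, Bool.false_or, Bool.and_eq_true] at this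
    exact this.2

theorem g_noTri {a b c : ℕ} (ha : a < 19) (hb : b < 19) (hc : c < 19) (h1 : gAdj a b = true)
    (h2 : gAdj a c = true) (h3 : gAdj b c = true) : False := by
  have := all_range (all_range g_tri a ha) b hb
  simp only [h1, Bool.not_true, Bool.false_or] at this
  have := all_range this c hc
  simp [h2, h3] at this

theorem g_noP4 {a b c d : ℕ} (ha : a < 19) (hb : b < 19) (hc : c < 19) (hd : d < 19)
    (h : P4 gAdj a b c d) : ¬ (gC a = gC b ∧ gC b = gC c ∧ gC c = gC d) := by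
  rintro ⟨c1, c2, c3⟩
  obtain ⟨h1, h2, h3, h4, h5, h6, h7, h8, h9⟩ := h
  have := all_range (all_range g_col a ha) b hb
  simp only [h1, c1, beq_self_eq_true, Bool.and_self, Bool.not_true, Bool.false_or] at this
  have := all_range this c hc
  simp only [h2, c2, h4, beq_self_eq_true, Bool.and_self, Bool.not_false,
    beq_eq_false_iff_ne.2 h7, Bool.not_true, Bool.false_or] at this
  have := all_range this d hd
  simp [h3, c3, h5, h6, h8, h9] at this

/-! ### Induced paths in a relation -/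

/-- `a b c d` is an induced path for the relation `r` -/
def IP4 {V : Type} (r : V → V → Prop) (a b c d : V) : Prop :=
  r a b ∧ r b c ∧ r c d ∧ ¬ r a c ∧ ¬ r a d ∧ ¬ r b d ∧ a ≠ c ∧ a ≠ d ∧ b ≠ d

/-- the colouring has no monochromatic induced path on four vertices -/
def Good {V : Type} (r : V → V → Prop) (col : V → Bool) : Prop :=
  ∀ a b c d, IP4 r a b c d → ¬ (col a = col b ∧ col b = col c ∧ col c = col d)

/-! ### The expanded graph -/

/-- vertices of the expanded graph: the vertices of the skeleton and the inner vertices of the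
gadgets -/
abbrev XV : Type := ℕ ⊕ ((ℕ × ℕ) × ℕ)

/-- the vertices of the gadget of the link `e` -/
def emb (e : ℕ × ℕ) (i : ℕ) : XV :=
  if i = 0 then Sum.inl e.1 else if i = 1 then Sum.inl e.2 else Sum.inr (e, i - 2)

/-- the edges of the expanded graph -/
def xE (RE LE : List (ℕ × ℕ)) : List (XV × XV) :=
  RE.map (fun e => (Sum.inl e.1, Sum.inl e.2)) ++
    LE.flatMap (fun e => gE.map (fun g => (emb e g.1, emb e g.2)))

/-- adjacency in a list of edges -/
def LAdj {V : Type} (E : List (V × V)) (x y : V) : Prop := (x, y) ∈ E ∨ (y, x) ∈ E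

theorem LAdj.symm {V : Type} {E : List (V × V)} {x y : V} (h : LAdj E x y) : LAdj E y x :=
  Or.symm h

/-- the conditions on a skeleton -/
structure Skel (RE LE : List (ℕ × ℕ)) : Prop where
  loop : ∀ e ∈ RE, e.1 ≠ e.2
  ne : ∀ e ∈ LE, e.1 ≠ e.2
  nadj : ∀ e ∈ LE, ¬ LAdj RE e.1 e.2


variable {RE LE : List (ℕ × ℕ)}

theorem emb_zero (e : ℕ × ℕ) : emb e 0 = Sum.inl e.1 := rfl
theorem emb_one (e : ℕ × ℕ) : emb e 1 = Sum.inl e.2 := rfl
theorem emb_add (e : ℕ × ℕ) (k : ℕ) : emb e (k + 2) = Sum.inr (e, k) := rfl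

theorem emb_inner {e : ℕ × ℕ} {i : ℕ} (h : 2 ≤ i) : emb e i = Sum.inr (e, i - 2) := by
  obtain ⟨k, rfl⟩ := Nat.exists_eq_add_of_le' h
  rfl

theorem emb_inj {e : ℕ × ℕ} (h : e.1 ≠ e.2) {i j : ℕ} (hij : emb e i = emb e j) : i = j := by
  match i, j, hij with
  | 0, 0, _ => rfl
  | 0, 1, hij => exact absurd (Sum.inl.inj hij) h
  | 1, 0, hij => exact absurd (Sum.inl.inj hij).symm h
  | 1, 1, _ => rfl
  | 0, j + 2, hij => exact absurd hij (by simp [emb])
  | 1, j + 2, hij => exact absurd hij (by simp [emb])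
  | i + 2, 0, hij => exact absurd hij (by simp [emb])
  | i + 2, 1, hij => exact absurd hij (by simp [emb])
  | i + 2, j + 2, hij =>
    rw [emb_add, emb_add] at hij
    have := Sum.inr.inj hij
    have := (Prod.mk.inj this).2
    omega

theorem mem_xE {p : XV × XV} : p ∈ xE RE LE ↔ (∃ e ∈ RE, p = (Sum.inl e.1, Sum.inl e.2)) ∨
    ∃ e ∈ LE, ∃ g ∈ gE, p = (emb e g.1, emb e g.2) := by
  simp only [xE, List.mem_append, List.mem_map, List.mem_flatMap]
  constructor
  · rintro (⟨e, he, rfl⟩ | ⟨e, he, g, hg, rfl⟩)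
    · exact Or.inl ⟨e, he, rfl⟩
    · exact Or.inr ⟨e, he, g, hg, rfl⟩
  · rintro (⟨e, he, rfl⟩ | ⟨e, he, g, hg, rfl⟩)
    · exact Or.inl ⟨e, he, rfl⟩
    · exact Or.inr ⟨e, he, g, hg, rfl⟩

theorem xadj_emb {e : ℕ × ℕ} (he : e ∈ LE) {i j : ℕ} (hi : i < 19) (hj : j < 19)
    (h : gAdj i j = true) : LAdj (xE RE LE) (emb e i) (emb e j) := by
  rcases (gAdj_iff hi hj).1 h with h | h
  · exact Or.inl (mem_xE.2 (Or.inr ⟨e, he, _, h, rfl⟩))
  · exact Or.inr (mem_xE.2 (Or.inr ⟨e, he, _, h, rfl⟩))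

theorem xadj_inl {v w : ℕ} : LAdj (xE RE LE) (Sum.inl v) (Sum.inl w) ↔ LAdj RE v w := by
  have key : ∀ v w, ((Sum.inl v, Sum.inl w) : XV × XV) ∈ xE RE LE ↔ (v, w) ∈ RE := by
    intro v w
    rw [mem_xE]
    constructor
    · rintro (⟨e, he, h⟩ | ⟨e, he, g, hg, h⟩)
      · have h1 := Sum.inl.inj (congrArg Prod.fst h)
        have h2 := Sum.inl.inj (congrArg Prod.snd h)
        rw [h1, h2]
        exact he
      · have h2 := congrArg Prod.snd h
        simp only at h2
        rw [emb_inner (gE_lt hg).2.2] at h2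
        exact absurd h2 (by simp)
    · intro h
      exact Or.inl ⟨_, h, rfl⟩
  rw [LAdj, LAdj, key, key]

/-- the neighbours of an inner vertex -/
theorem xadj_inr {e : ℕ × ℕ} {k : ℕ} {y : XV} (h : LAdj (xE RE LE) (Sum.inr (e, k)) y) :
    e ∈ LE ∧ k + 2 < 19 ∧ ∃ j < 19, y = emb e j ∧ gAdj (k + 2) j = true := by
  have h2 : ∀ f : ℕ × ℕ, ∀ i, (Sum.inr (e, k) : XV) = emb f i → f = e ∧ i = k + 2 := by
    intro f i hi
    match i, hi with
    | 0, hi => exact absurd hi (by simp [emb])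
    | 1, hi => exact absurd hi (by simp [emb])
    | i + 2, hi =>
      rw [emb_add] at hi
      have := Prod.mk.inj (Sum.inr.inj hi)
      exact ⟨this.1.symm, by omega⟩
  rcases h with h | h
  · rcases mem_xE.1 h with ⟨f, hf, h1⟩ | ⟨f, hf, g, hg, h1⟩
    · exact absurd (congrArg Prod.fst h1) (by simp)
    · obtain ⟨rfl, h4⟩ := h2 f g.1 (congrArg Prod.fst h1)
      have h5 := gE_lt hg
      refine ⟨hf, by omega, g.2, h5.2.1, congrArg Prod.snd h1, ?_⟩
      rw [← h4]
      exact (gAdj_iff (by omega) h5.2.1).2 (Or.inl hg)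
  · rcases mem_xE.1 h with ⟨f, hf, h1⟩ | ⟨f, hf, g, hg, h1⟩
    · exact absurd (congrArg Prod.snd h1) (by simp)
    · obtain ⟨rfl, h4⟩ := h2 f g.2 (congrArg Prod.snd h1)
      have h5 := gE_lt hg
      refine ⟨hf, by omega, g.1, by omega, congrArg Prod.fst h1, ?_⟩
      rw [← h4]
      exact (gAdj_iff h5.2.1 (by omega)).2 (Or.inr hg)

theorem xadj_emb_iff (hS : Skel RE LE) {e : ℕ × ℕ} (he : e ∈ LE) {i j : ℕ} (hi : i < 19)
    (hj : j < 19) : LAdj (xE RE LE) (emb e i) (emb e j) ↔ gAdj i j = true := by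
  refine ⟨fun h => ?_, fun h => xadj_emb he hi hj h⟩
  have key : ∀ k j, j < 19 → LAdj (xE RE LE) (Sum.inr (e, k)) (emb e j) →
      gAdj (k + 2) j = true := by
    intro k j hj h
    obtain ⟨-, -, j', hj', h1, h2⟩ := xadj_inr h
    rw [emb_inj (hS.ne e he) h1]
    exact h2
  match i, j, h with
  | 0, 0, h =>
    rcases xadj_inl.1 h with h | h
    · exact absurd rfl (hS.loop _ h)
    · exact absurd rfl (hS.loop _ h)
  | 0, 1, h => exact absurd (xadj_inl.1 h) (hS.nadj e he)
  | 1, 0, h => exact absurd (xadj_inl.1 h).symm (hS.nadj e he)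
  | 1, 1, h =>
    rcases xadj_inl.1 h with h | h
    · exact absurd rfl (hS.loop _ h)
    · exact absurd rfl (hS.loop _ h)
  | 0, j + 2, h =>
    have := key j 0 (by omega) h.symm
    exact gAdj_symm (by omega) (by omega) this
  | 1, j + 2, h =>
    have := key j 1 (by omega) h.symm
    exact gAdj_symm (by omega) (by omega) this
  | i + 2, j, h => exact key i j hj h

/-- The terminals of a gadget have the same colour. -/
theorem good_link (hS : Skel RE LE) {col : XV → Bool} (h : Good (LAdj (xE RE LE)) col)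
    {e : ℕ × ℕ} (he : e ∈ LE) : col (Sum.inl e.1) = col (Sum.inl e.2) := by
  have h1 := gadget (fun i => col (emb e i)) (by
    rintro a b d f ha hb hd hf ⟨a1, a2, a3, a4, a5, a6, a7, a8, a9⟩
    have hi := fun {i j : ℕ} (hi : i < 19) (hj : j < 19) => xadj_emb_iff hS he hi hj
    have hne := hS.ne e he
    refine h _ _ _ _ ⟨(hi ha hb).2 a1, (hi hb hd).2 a2, (hi hd hf).2 a3, ?_, ?_, ?_, ?_, ?_, ?_⟩
    · rw [hi ha hd, a4]; exact Bool.false_ne_true
    · rw [hi ha hf, a5]; exact Bool.false_ne_true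
    · rw [hi hb hf, a6]; exact Bool.false_ne_true
    · exact fun h => a7 (emb_inj hne h)
    · exact fun h => a8 (emb_inj hne h)
    · exact fun h => a9 (emb_inj hne h))
  exact h1

theorem good_main {col : XV → Bool} (h : Good (LAdj (xE RE LE)) col) :
    Good (LAdj RE) (fun w => col (Sum.inl w)) := by
  rintro a b c d ⟨h1, h2, h3, h4, h5, h6, h7, h8, h9⟩
  refine h _ _ _ _ ⟨xadj_inl.2 h1, xadj_inl.2 h2, xadj_inl.2 h3, ?_, ?_, ?_, ?_, ?_, ?_⟩
  · rw [xadj_inl]; exact h4
  · rw [xadj_inl]; exact h5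
  · rw [xadj_inl]; exact h6
  · exact fun h => h7 (Sum.inl.inj h)
  · exact fun h => h8 (Sum.inl.inj h)
  · exact fun h => h9 (Sum.inl.inj h)

/-- the extension of a colouring of the skeleton -/
def xcol (c : ℕ → Bool) : XV → Bool
  | Sum.inl w => c w
  | Sum.inr (e, k) => xor (c e.1) (gC (k + 2))

theorem xcol_emb {c : ℕ → Bool} {e : ℕ × ℕ} (h : c e.1 = c e.2) (i : ℕ) :
    xcol c (emb e i) = xor (c e.1) (gC i) := by
  match i with
  | 0 => rw [emb_zero, gC_zero, Bool.xor_false]; rfl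
  | 1 => rw [emb_one, gC_one, Bool.xor_false, h]; rfl
  | i + 2 => rfl

theorem good_extend (hS : Skel RE LE) {c : ℕ → Bool} (hc : Good (LAdj RE) c)
    (hl : ∀ e ∈ LE, c e.1 = c e.2) : Good (LAdj (xE RE LE)) (xcol c) := by
  -- a monochromatic edge at an inner vertex stays in the gadget
  have hin : ∀ e k y, LAdj (xE RE LE) (Sum.inr (e, k)) y → xcol c (Sum.inr (e, k)) = xcol c y →
      ∃ k', y = Sum.inr (e, k') := by
    intro e k y hy hcol
    obtain ⟨he, hk, j, hj, rfl, hadj⟩ := xadj_inr hy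
    rw [xcol_emb (hl e he)] at hcol
    change xor (c e.1) (gC (k + 2)) = xor (c e.1) (gC j) at hcol
    rw [Bool.xor_right_inj] at hcol
    match j, hj, hadj, hcol with
    | 0, hj, hadj, hcol =>
      rw [gC_nbr hk (by omega) (gAdj_symm hk (by omega) hadj), gC_zero] at hcol
      exact absurd hcol (by simp)
    | 1, hj, hadj, hcol =>
      rw [gC_nbr hk (by omega) (gAdj_symm hk (by omega) hadj), gC_one] at hcol
      exact absurd hcol (by simp)
    | j + 2, hj, hadj, hcol => exact ⟨j, rfl⟩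
  have hout : ∀ w y, LAdj (xE RE LE) (Sum.inl w) y → xcol c (Sum.inl w) = xcol c y →
      ∃ w', y = Sum.inl w' := by
    intro w y hy hcol
    match y, hy, hcol with
    | Sum.inl w', _, _ => exact ⟨w', rfl⟩
    | Sum.inr (e, k), hy, hcol =>
      obtain ⟨k', hk'⟩ := hin e k _ hy.symm hcol.symm
      exact absurd hk' (by simp)
  rintro a b x d ⟨h1, h2, h3, h4, h5, h6, h7, h8, h9⟩ ⟨c1, c2, c3⟩
  match a, h1, h4, h5, h7, h8, c1 with
  | Sum.inl a, h1, h4, h5, h7, h8, c1 =>
    obtain ⟨b, rfl⟩ := hout a _ h1 c1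
    obtain ⟨x, rfl⟩ := hout b _ h2 c2
    obtain ⟨d, rfl⟩ := hout x _ h3 c3
    rw [xadj_inl] at h1 h2 h3 h4 h5 h6
    exact hc a b x d ⟨h1, h2, h3, h4, h5, h6, fun h => h7 (by rw [h]), fun h => h8 (by rw [h]),
      fun h => h9 (by rw [h])⟩ ⟨c1, c2, c3⟩
  | Sum.inr (e, a), h1, h4, h5, h7, h8, c1 =>
    obtain ⟨b, rfl⟩ := hin e a _ h1 c1
    obtain ⟨x, rfl⟩ := hin e b _ h2 c2
    obtain ⟨d, rfl⟩ := hin e x _ h3 c3
    obtain ⟨he, ha, -⟩ := xadj_inr h1
    obtain ⟨-, hb, -⟩ := xadj_inr h2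
    obtain ⟨-, hx, -⟩ := xadj_inr h3
    obtain ⟨-, hd, -⟩ := xadj_inr h3.symm
    have hi := fun {i j : ℕ} (hi : i < 19) (hj : j < 19) => xadj_emb_iff hS he hi hj
    rw [← emb_add, ← emb_add] at h1 h2 h3 h4 h5 h6 h7 h8 h9
    rw [hi ha hb] at h1
    rw [hi hb hx] at h2
    rw [hi hx hd] at h3
    rw [hi ha hx, Bool.not_eq_true] at h4
    rw [hi ha hd, Bool.not_eq_true] at h5
    rw [hi hb hd, Bool.not_eq_true] at h6
    change xor (c e.1) (gC (a + 2)) = xor (c e.1) (gC (b + 2)) at c1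
    change xor (c e.1) (gC (b + 2)) = xor (c e.1) (gC (x + 2)) at c2
    change xor (c e.1) (gC (x + 2)) = xor (c e.1) (gC (d + 2)) at c3
    rw [Bool.xor_right_inj] at c1 c2 c3
    exact g_noP4 ha hb hx hd ⟨h1, h2, h3, h4, h5, h6, fun h => h7 (by rw [h]),
      fun h => h8 (by rw [h]), fun h => h9 (by rw [h])⟩ ⟨c1, c2, c3⟩

/-- The expanded graph is triangle-free if the skeleton is. -/
theorem x_noTri (hS : Skel RE LE) (ht : ∀ a b c, LAdj RE a b → LAdj RE a c → LAdj RE b c → False)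
    (a b c : XV) (h1 : LAdj (xE RE LE) a b) (h2 : LAdj (xE RE LE) a c)
    (h3 : LAdj (xE RE LE) b c) : False := by
  have key : ∀ e k (b c : XV), LAdj (xE RE LE) (Sum.inr (e, k)) b →
      LAdj (xE RE LE) (Sum.inr (e, k)) c → LAdj (xE RE LE) b c → False := by
    intro e k b c h1 h2 h3
    obtain ⟨he, hk, i, hi, rfl, a1⟩ := xadj_inr h1
    obtain ⟨-, -, j, hj, rfl, a2⟩ := xadj_inr h2
    rw [xadj_emb_iff hS he hi hj] at h3
    exact g_noTri hk hi hj a1 a2 h3
  match a, b, c, h1, h2, h3 with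
  | Sum.inr (e, k), b, c, h1, h2, h3 => exact key e k b c h1 h2 h3
  | Sum.inl a, Sum.inr (e, k), c, h1, h2, h3 => exact key e k _ c h1.symm h3 h2
  | Sum.inl a, Sum.inl b, Sum.inr (e, k), h1, h2, h3 => exact key e k _ _ h2.symm h3.symm h1
  | Sum.inl a, Sum.inl b, Sum.inl c, h1, h2, h3 =>
    exact ht a b c (xadj_inl.1 h1) (xadj_inl.1 h2) (xadj_inl.1 h3)

end Pool.Agent.R538.PC
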