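import Mathlib
import Pool.Agent.R538.PC.Exp

/-!
Planarity of the expanded graph.
-/

set_option autoImplicit false

namespace Pool.Agent.R538.PC

open Pool.Agent.R50.PlanarCograph Filter Topology

/-! ### The template -/

theorem gp_inj {i j : ℕ} (hi : i < 19) (hj : j < 19) (h : gp i = gp j) : i = j := by
  have := all_range (all_range g_inj i hi) j hj
  rw [h] at this
  simpa using this

theorem g_has : ((List.range 19).all fun k => gE.any fun g => k == g.1 || k == g.2) = true := by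
  decide +kernel

theorem t_inter {g g' : ℕ × ℕ} (hg : g ∈ gE) (hg' : g' ∈ gE) (hne : g ≠ g') {q : ℝ × ℝ}
    (h1 : q ∈ segment ℝ (toR (gp g.1)) (toR (gp g.2)))
    (h2 : q ∈ segment ℝ (toR (gp g'.1)) (toR (gp g'.2))) :
    (q = toR (gp g.1) ∨ q = toR (gp g.2)) ∧ (q = toR (gp g'.1) ∨ q = toR (gp g'.2)) := by
  have h3 := g_sep
  rw [List.all_eq_true] at h3
  have h4 := h3 g hg
  rw [List.all_eq_true] at h4
  have h5 := h4 g' hg'
  simp only [Bool.or_eq_true, Bool.and_eq_true, beq_iff_eq] at h5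
  rcases h5 with h5 | h5
  · exact absurd (Prod.ext h5.1 h5.2) hne
  · exact (sepB_sep h5).inter h1 h2

theorem t_vertex {g : ℕ × ℕ} (hg : g ∈ gE) {k : ℕ} (hk : k < 19)
    (h : toR (gp k) ∈ segment ℝ (toR (gp g.1)) (toR (gp g.2))) : k = g.1 ∨ k = g.2 := by
  have h1 := all_range g_has k hk
  rw [List.any_eq_true] at h1
  obtain ⟨g', hg', h2⟩ := h1
  simp only [Bool.or_eq_true, beq_iff_eq] at h2
  have hlt := gE_lt hg
  by_cases hgg : g = g'
  · rw [hgg]; exact h2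
  · have h3 : toR (gp k) ∈ segment ℝ (toR (gp g'.1)) (toR (gp g'.2)) := by
      rcases h2 with h2 | h2
      · rw [h2]; exact left_mem_segment ℝ _ _
      · rw [h2]; exact right_mem_segment ℝ _ _
    rcases (t_inter hg hg' hgg h h3).1 with h4 | h4
    · left; exact gp_inj hk (by omega) (toR_inj h4)
    · right; exact gp_inj hk (by omega) (toR_inj h4)

/-- the affine map that carries the template to the link -/
noncomputable def am (ε : ℝ) (u v Q : ℝ × ℝ) : ℝ × ℝ :=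
  u + (Q.1 / 2000) • (v - u) + (ε * Q.2 / 2000) • (-(v - u).2, (v - u).1)

theorem am_line (ε : ℝ) (u v Q Q' : ℝ × ℝ) (t : ℝ) :
    am ε u v (Q + t • (Q' - Q)) = am ε u v Q + t • (am ε u v Q' - am ε u v Q) := by
  simp only [am]
  ext <;> simp <;> ring

theorem am_inj {ε : ℝ} (hε : 0 < ε) {u v : ℝ × ℝ} (huv : u ≠ v) {Q Q' : ℝ × ℝ}
    (h : am ε u v Q = am ε u v Q') : Q = Q' := by
  have h1 := congrArg Prod.fst h
  have h2 := congrArg Prod.snd h
  simp only [am, Prod.fst_add, Prod.snd_add, Prod.smul_fst, Prod.smul_snd, Prod.fst_sub,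
    Prod.snd_sub, smul_eq_mul] at h1 h2
  set a := v.1 - u.1 with ha
  set b := v.2 - u.2 with hb
  have hab : 0 < a * a + b * b := by
    by_contra hcon
    push Not at hcon
    apply huv
    have e1 : a = 0 := by nlinarith [mul_self_nonneg a, mul_self_nonneg b]
    have e2 : b = 0 := by nlinarith [mul_self_nonneg a, mul_self_nonneg b]
    exact Prod.ext (by linarith) (by linarith)
  have h3 : (Q.1 - Q'.1) * (a * a + b * b) = 0 := by
    linear_combination 2000 * a * h1 + 2000 * b * h2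
  have h4 : ε * (Q.2 - Q'.2) * (a * a + b * b) = 0 := by
    linear_combination 2000 * a * h2 - 2000 * b * h1
  have h5 : Q.1 - Q'.1 = 0 := by
    rcases mul_eq_zero.1 h3 with h | h
    · exact h
    · exact absurd h hab.ne'
  have h6 : Q.2 - Q'.2 = 0 := by
    rcases mul_eq_zero.1 h4 with h | h
    · rcases mul_eq_zero.1 h with h | h
      · exact absurd h hε.ne'
      · exact h
    · exact absurd h hab.ne'
  exact Prod.ext (by linarith) (by linarith)

/-- the region of the template -/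
def TR (Q : ℝ × ℝ) : Prop := 0 ≤ Q.1 ∧ Q.1 ≤ 2000 ∧ |Q.2| ≤ Q.1 ∧ |Q.2| ≤ 2000 - Q.1

theorem gp_TR {k : ℕ} (hk : k < 19) : TR (toR (gp k)) := by
  have := all_range g_reg k hk
  simp only [Bool.and_eq_true, decide_eq_true_eq] at this
  obtain ⟨⟨⟨h1, h2⟩, h3⟩, h4⟩ := this
  refine ⟨?_, ?_, ?_, ?_⟩
  · simp only [toR]; exact_mod_cast h1
  · simp only [toR]; exact_mod_cast h2
  · simp only [toR]; exact_mod_cast h3
  · simp only [toR]; exact_mod_cast h4

theorem TR.line {Q Q' : ℝ × ℝ} (h : TR Q) (h' : TR Q') {t : ℝ} (h0 : 0 ≤ t) (h1 : t ≤ 1) :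
    TR (Q + t • (Q' - Q)) := by
  obtain ⟨a1, a2, a3, a4⟩ := h
  obtain ⟨b1, b2, b3, b4⟩ := h'
  rw [abs_le] at a3 a4 b3 b4
  simp only [TR, Prod.fst_add, Prod.snd_add, Prod.smul_fst, Prod.smul_snd, Prod.fst_sub,
    Prod.snd_sub, smul_eq_mul, abs_le]
  have h2 : 0 ≤ 1 - t := by linarith
  refine ⟨?_, ?_, ⟨?_, ?_⟩, ⟨?_, ?_⟩⟩ <;> nlinarith

theorem am_reg {ε : ℝ} (hε : 0 < ε) (u v : ℝ × ℝ) {Q : ℝ × ℝ} (h : TR Q) :
    am ε u v Q ∈ Reg ε u v := by
  obtain ⟨h1, h2, h3, h4⟩ := h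
  refine ⟨Q.1 / 2000, ε * Q.2 / 2000, by positivity, by linarith, ?_, ?_, rfl⟩
  · rw [abs_div, abs_mul, abs_of_pos hε, abs_of_pos (by norm_num : (0 : ℝ) < 2000), mul_div_assoc]
    exact mul_le_mul_of_nonneg_left (by linarith) hε.le
  · rw [abs_div, abs_mul, abs_of_pos hε, abs_of_pos (by norm_num : (0 : ℝ) < 2000), mul_div_assoc]
    exact mul_le_mul_of_nonneg_left (by linarith) hε.le

/-- points of the image of a segment of the template -/
theorem am_seg {ε : ℝ} {u v Q Q' q : ℝ × ℝ} (h : q ∈ segment ℝ (am ε u v Q) (am ε u v Q')) :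
    ∃ Q'' ∈ segment ℝ Q Q', q = am ε u v Q'' := by
  obtain ⟨t, h0, h1, rfl⟩ := mem_seg.1 h
  exact ⟨Q + t • (Q' - Q), mem_seg.2 ⟨t, h0, h1, rfl⟩, (am_line _ _ _ _ _ _).symm⟩

theorem am_zero (ε : ℝ) (u v : ℝ × ℝ) : am ε u v (toR (gp 0)) = u := by
  have : gp 0 = (0, 0) := rfl
  rw [this, am, toR]
  simp

theorem am_one (ε : ℝ) (u v : ℝ × ℝ) : am ε u v (toR (gp 1)) = v := by
  have : gp 1 = (2000, 0) := rfl
  rw [this, am, toR]
  simp

/-! ### The expanded graph -/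

/-- the conditions on the drawing of the skeleton -/
structure PSkel (RE LE : List (ℕ × ℕ)) (p : ℕ → ℝ × ℝ) : Prop extends Skel RE LE where
  inj : ∀ e ∈ RE ++ LE, ∀ f ∈ RE ++ LE, ∀ a b, (a = e.1 ∨ a = e.2) → (b = f.1 ∨ b = f.2) →
    p a = p b → a = b
  sep : ∀ e ∈ RE ++ LE, ∀ f ∈ RE ++ LE, e ≠ f → Sep (p e.1) (p e.2) (p f.1) (p f.2)

variable {RE LE : List (ℕ × ℕ)} {p : ℕ → ℝ × ℝ}

/-- positions of the vertices of the expanded graph -/
noncomputable def px (p : ℕ → ℝ × ℝ) (ε : ℝ) : XV → ℝ × ℝ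
  | Sum.inl w => p w
  | Sum.inr (e, k) => am ε (p e.1) (p e.2) (toR (gp (k + 2)))

theorem px_emb (ε : ℝ) (e : ℕ × ℕ) (i : ℕ) :
    px p ε (emb e i) = am ε (p e.1) (p e.2) (toR (gp i)) := by
  match i with
  | 0 => rw [am_zero]; rfl
  | 1 => rw [am_one]; rfl
  | i + 2 => rfl

theorem exists_eps (h : PSkel RE LE p) : ∃ ε : ℝ, 0 < ε ∧
    ∀ e ∈ RE ++ LE, ∀ f ∈ RE ++ LE, e ≠ f → Thin ε (p e.1) (p e.2) (p f.1) (p f.2) := by
  have h1 : ∀ e ∈ {e | e ∈ RE ++ LE}, ∀ᶠ ε : ℝ in 𝓝[>] 0, ∀ f ∈ {f | f ∈ RE ++ LE}, e ≠ f →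
      Thin ε (p e.1) (p e.2) (p f.1) (p f.2) := by
    intro e he
    refine (eventually_all_finite (List.finite_toSet (RE ++ LE))).2 ?_
    intro f hf
    by_cases hef : e = f
    · exact Eventually.of_forall fun ε hne => absurd hef hne
    · obtain ⟨δ, hδ, h2⟩ := (h.sep e he f hf hef).thin
      have h3 : ∀ᶠ ε : ℝ in 𝓝[>] 0, ε < δ := mem_nhdsWithin_of_mem_nhds (Iio_mem_nhds hδ)
      have h4 : ∀ᶠ ε : ℝ in 𝓝[>] (0 : ℝ), 0 < ε := self_mem_nhdsWithin
      filter_upwards [h3, h4] with ε h5 h6 _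
      exact h2 ε h6 h5
  have h2 := (eventually_all_finite (List.finite_toSet (RE ++ LE))).2 h1
  have h4 : ∀ᶠ ε : ℝ in 𝓝[>] (0 : ℝ), 0 < ε := self_mem_nhdsWithin
  obtain ⟨ε, h5, h6⟩ := (h2.and h4).exists
  exact ⟨ε, h6, fun e he f hf hne => h5 e he f hf hne⟩

/-- vertices that are incident with an edge -/
def XVtx (RE LE : List (ℕ × ℕ)) (x : XV) : Prop := ∃ E ∈ xE RE LE, x = E.1 ∨ x = E.2

theorem RE_ne (h : PSkel RE LE p) {e : ℕ × ℕ} (he : e ∈ RE ++ LE) : e.1 ≠ e.2 := by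
  rcases List.mem_append.1 he with h1 | h1
  · exact h.loop e h1
  · exact h.ne e h1

theorem pos_ne (h : PSkel RE LE p) {e : ℕ × ℕ} (he : e ∈ RE ++ LE) : p e.1 ≠ p e.2 :=
  fun h1 => RE_ne h he (h.inj e he e he e.1 e.2 (Or.inl rfl) (Or.inr rfl) h1)

theorem inl_vtx {w : ℕ} (hw : XVtx RE LE (Sum.inl w)) : ∃ e ∈ RE ++ LE, w = e.1 ∨ w = e.2 := by
  obtain ⟨E, hE, hw⟩ := hw
  rcases mem_xE.1 hE with ⟨e, he, rfl⟩ | ⟨e, he, g, hg, rfl⟩
  · refine ⟨e, List.mem_append_left _ he, ?_⟩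
    rcases hw with hw | hw
    · exact Or.inl (Sum.inl.inj hw)
    · exact Or.inr (Sum.inl.inj hw)
  · refine ⟨e, List.mem_append_right _ he, ?_⟩
    have key : ∀ i, (Sum.inl w : XV) = emb e i → w = e.1 ∨ w = e.2 := by
      intro i hi
      match i, hi with
      | 0, hi => exact Or.inl (Sum.inl.inj hi)
      | 1, hi => exact Or.inr (Sum.inl.inj hi)
      | i + 2, hi => exact absurd hi (by simp [emb])
    rcases hw with hw | hw
    · exact key _ hw
    · exact key _ hw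

theorem inr_vtx {e : ℕ × ℕ} {k : ℕ} (hw : XVtx RE LE (Sum.inr (e, k))) :
    e ∈ LE ∧ k + 2 < 19 := by
  obtain ⟨E, hE, hw⟩ := hw
  have : ∃ y, LAdj (xE RE LE) (Sum.inr (e, k)) y := by
    rcases hw with hw | hw
    · exact ⟨E.2, Or.inl (by rw [hw]; exact hE)⟩
    · exact ⟨E.1, Or.inr (by rw [hw]; exact hE)⟩
  obtain ⟨y, hy⟩ := this
  obtain ⟨h1, h2, -⟩ := xadj_inr hy
  exact ⟨h1, h2⟩

section Main

variable (h : PSkel RE LE p) {ε : ℝ} (hε : 0 < ε)
  (ht : ∀ e ∈ RE ++ LE, ∀ f ∈ RE ++ LE, e ≠ f → Thin ε (p e.1) (p e.2) (p f.1) (p f.2))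

include h hε

theorem am_end {e : ℕ × ℕ} (he : e ∈ LE) {k : ℕ} (hk : k + 2 < 19) {w : ℕ}
    (hw : w = e.1 ∨ w = e.2) : am ε (p e.1) (p e.2) (toR (gp (k + 2))) ≠ p w := by
  intro h1
  have hne := pos_ne h (List.mem_append_right RE he)
  rcases hw with rfl | rfl
  · have h2 : am ε (p e.1) (p e.2) (toR (gp (k + 2))) = am ε (p e.1) (p e.2) (toR (gp 0)) := by
      rw [am_zero]; exact h1
    have := gp_inj hk (by norm_num) (toR_inj (am_inj hε hne h2))
    omega
  · have h2 : am ε (p e.1) (p e.2) (toR (gp (k + 2))) = am ε (p e.1) (p e.2) (toR (gp 1)) := by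
      rw [am_one]; exact h1
    have := gp_inj hk (by norm_num) (toR_inj (am_inj hε hne h2))
    omega

include ht

theorem px_inj {x y : XV} (hx : XVtx RE LE x) (hy : XVtx RE LE y) (hxy : px p ε x = px p ε y) :
    x = y := by
  have key : ∀ w e k, XVtx RE LE (Sum.inl w) → XVtx RE LE (Sum.inr (e, k)) →
      px p ε (Sum.inl w) = px p ε (Sum.inr (e, k)) → False := by
    intro w e k hw he hwe
    obtain ⟨f, hf, hw⟩ := inl_vtx hw
    obtain ⟨he, hk⟩ := inr_vtx he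
    change p w = am ε (p e.1) (p e.2) (toR (gp (k + 2))) at hwe
    by_cases hef : e = f
    · subst hef
      exact am_end h hε he hk hw hwe.symm
    · have h1 : p w ∈ Reg ε (p e.1) (p e.2) := by
        rw [hwe]
        exact am_reg hε _ _ (gp_TR hk)
      have h2 : p w ∈ Reg ε (p f.1) (p f.2) := by
        apply seg_sub_reg hε.le
        rcases hw with rfl | rfl
        · exact left_mem_segment ℝ _ _
        · exact right_mem_segment ℝ _ _
      have h3 := (ht e (List.mem_append_right _ he) f hf hef _ h1 h2).1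
      rcases h3 with h3 | h3
      · exact am_end h hε he hk (Or.inl rfl) (hwe.symm.trans h3)
      · exact am_end h hε he hk (Or.inr rfl) (hwe.symm.trans h3)
  match x, y, hx, hy, hxy with
  | Sum.inl v, Sum.inl w, hx, hy, hxy =>
    obtain ⟨e, he, h1⟩ := inl_vtx hx
    obtain ⟨f, hf, h2⟩ := inl_vtx hy
    rw [h.inj e he f hf v w h1 h2 hxy]
  | Sum.inl w, Sum.inr (e, k), hx, hy, hxy => exact absurd hxy (fun h1 => key w e k hx hy h1)
  | Sum.inr (e, k), Sum.inl w, hx, hy, hxy =>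
    exact absurd hxy (fun h1 => key w e k hy hx h1.symm)
  | Sum.inr (e, k), Sum.inr (f, l), hx, hy, hxy =>
    obtain ⟨he, hk⟩ := inr_vtx hx
    obtain ⟨hf, hl⟩ := inr_vtx hy
    change am ε (p e.1) (p e.2) (toR (gp (k + 2))) = am ε (p f.1) (p f.2) (toR (gp (l + 2))) at hxy
    by_cases hef : e = f
    · subst hef
      have := gp_inj hk hl (toR_inj (am_inj hε (pos_ne h (List.mem_append_right _ he)) hxy))
      have : k = l := by omega
      rw [this]
    · exfalso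
      have h1 := am_reg hε (p e.1) (p e.2) (gp_TR hk)
      have h2 := am_reg hε (p f.1) (p f.2) (gp_TR hl)
      rw [← hxy] at h2
      rcases (ht e (List.mem_append_right _ he) f (List.mem_append_right _ hf) hef _ h1 h2).1
        with h3 | h3
      · exact am_end h hε he hk (Or.inl rfl) h3
      · exact am_end h hε he hk (Or.inr rfl) h3

omit ht in
/-- a gadget edge through an end of the link -/
theorem end_on_edge {e g : ℕ × ℕ} (he : e ∈ LE) (hg : g ∈ gE) {q : ℝ × ℝ}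
    (hq : q ∈ segment ℝ (px p ε (emb e g.1)) (px p ε (emb e g.2)))
    (hqe : q = p e.1 ∨ q = p e.2) : q = px p ε (emb e g.1) ∨ q = px p ε (emb e g.2) := by
  rw [px_emb, px_emb] at hq ⊢
  have hne := pos_ne h (List.mem_append_right RE he)
  have hqi : ∃ i < 2, q = am ε (p e.1) (p e.2) (toR (gp i)) := by
    rcases hqe with hqe | hqe
    · exact ⟨0, by norm_num, by rw [am_zero]; exact hqe⟩
    · exact ⟨1, by norm_num, by rw [am_one]; exact hqe⟩
  obtain ⟨i, hi, hqi⟩ := hqi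
  obtain ⟨Q, hQ, hqQ⟩ := am_seg hq
  have h1 : toR (gp i) = Q := am_inj hε hne (hqi.symm.trans hqQ)
  rw [← h1] at hQ
  rcases t_vertex hg (by omega) hQ with h2 | h2
  · left; rw [hqi, h2]
  · right; rw [hqi, h2]

theorem x_inter {E E' : XV × XV} (hE : E ∈ xE RE LE) (hE' : E' ∈ xE RE LE) (hne : E ≠ E')
    {q : ℝ × ℝ} (h1 : q ∈ segment ℝ (px p ε E.1) (px p ε E.2))
    (h2 : q ∈ segment ℝ (px p ε E'.1) (px p ε E'.2)) :
    (q = px p ε E.1 ∨ q = px p ε E.2) ∧ (q = px p ε E'.1 ∨ q = px p ε E'.2) := by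
  have hseg : ∀ e ∈ LE, ∀ g ∈ gE, ∀ q ∈ segment ℝ (px p ε (emb e g.1)) (px p ε (emb e g.2)),
      q ∈ Reg ε (p e.1) (p e.2) := by
    intro e he g hg q hq
    rw [px_emb, px_emb] at hq
    obtain ⟨Q, hQ, rfl⟩ := am_seg hq
    obtain ⟨t, t0, t1, rfl⟩ := mem_seg.1 hQ
    have hlt := gE_lt hg
    exact am_reg hε _ _ ((gp_TR (by omega)).line (gp_TR hlt.2.1) t0 t1)
  rcases mem_xE.1 hE with ⟨e, he, rfl⟩ | ⟨e, he, g, hg, rfl⟩
  · rcases mem_xE.1 hE' with ⟨f, hf, rfl⟩ | ⟨f, hf, g', hg', rfl⟩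
    · have hef : e ≠ f := fun h3 => hne (by rw [h3])
      exact ht e (List.mem_append_left _ he) f (List.mem_append_left _ hf) hef q
        (seg_sub_reg hε.le _ _ h1) (seg_sub_reg hε.le _ _ h2)
    · have hef : e ≠ f := by
        rintro rfl
        exact h.nadj e hf (Or.inl he)
      obtain ⟨a1, a2⟩ := ht e (List.mem_append_left _ he) f (List.mem_append_right _ hf) hef q
        (seg_sub_reg hε.le _ _ h1) (hseg f hf g' hg' q h2)
      exact ⟨a1, end_on_edge h hε hf hg' h2 a2⟩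
  · rcases mem_xE.1 hE' with ⟨f, hf, rfl⟩ | ⟨f, hf, g', hg', rfl⟩
    · have hef : e ≠ f := by
        rintro rfl
        exact h.nadj e he (Or.inl hf)
      obtain ⟨a1, a2⟩ := ht e (List.mem_append_right _ he) f (List.mem_append_left _ hf) hef q
        (hseg e he g hg q h1) (seg_sub_reg hε.le _ _ h2)
      exact ⟨end_on_edge h hε he hg h1 a1, a2⟩
    · by_cases hef : e = f
      · subst hef
        have hgg : g ≠ g' := fun h3 => hne (by rw [h3])
        simp only [px_emb] at h1 h2 ⊢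
        obtain ⟨Q, hQ, hq⟩ := am_seg h1
        obtain ⟨Q', hQ', hq'⟩ := am_seg h2
        have h3 : Q = Q' := am_inj hε (pos_ne h (List.mem_append_right RE he)) (hq.symm.trans hq')
        subst h3
        obtain ⟨b1, b2⟩ := t_inter hg hg' hgg hQ hQ'
        rw [hq]
        exact ⟨b1.imp (fun h => by rw [h]) (fun h => by rw [h]),
          b2.imp (fun h => by rw [h]) (fun h => by rw [h])⟩
      · obtain ⟨a1, a2⟩ := ht e (List.mem_append_right _ he) f (List.mem_append_right _ hf) hef q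
          (hseg e he g hg q h1) (hseg f hf g' hg' q h2)
        exact ⟨end_on_edge h hε he hg h1 a1, end_on_edge h hε hf hg' h2 a2⟩

/-- no vertex lies in the interior of an edge -/
theorem x_vertex {E : XV × XV} (hE : E ∈ xE RE LE) {z : XV} (hz : XVtx RE LE z)
    (hq : px p ε z ∈ segment ℝ (px p ε E.1) (px p ε E.2)) : z = E.1 ∨ z = E.2 := by
  have hz' := hz
  obtain ⟨E', hE', h1⟩ := hz
  by_cases hne : E = E'
  · rw [hne]; exact h1
  · have h2 : px p ε z ∈ segment ℝ (px p ε E'.1) (px p ε E'.2) := by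
      rcases h1 with h1 | h1
      · rw [h1]; exact left_mem_segment ℝ _ _
      · rw [h1]; exact right_mem_segment ℝ _ _
    rcases (x_inter h hε ht hE hE' hne hq h2).1 with h3 | h3
    · exact Or.inl (px_inj h hε ht hz' ⟨E, hE, Or.inl rfl⟩ h3)
    · exact Or.inr (px_inj h hε ht hz' ⟨E, hE, Or.inr rfl⟩ h3)

end Main

end Pool.Agent.R538.PC
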