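import Mathlib
import Pool.Agent.R538.PC.Exp

/-!
The tiles.
-/

set_option autoImplicit false

namespace Pool.Agent.R538.PC

/-- points of a tile -/
abbrev Pt : Type := ℕ × ℕ

/-- the real edges of the tiles.  Tiles: 1 crossing, 2 branching, 3 branching with negation,
4 horizontal wire, 5 vertical wire, 6 north-east turn, 7 north-west turn, 8 clause, others empty -/
def tRE (ty : ℕ) : List (Pt × Pt) :=
  if ty = 1 then [((4, 6), (8, 6)), ((8, 6), (12, 6)), ((12, 6), (16, 6)), ((4, 14), (8, 14)),
      ((8, 14), (12, 14)), ((12, 14), (16, 14)), ((8, 6), (8, 9)), ((12, 6), (12, 9)),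
      ((28, 4), (28, 10)), ((28, 10), (28, 16)), ((28, 16), (34, 16)), ((4, 28), (10, 28)),
      ((10, 28), (16, 28)), ((16, 28), (16, 34))]
  else if ty = 3 then [((4, 28), (8, 24)), ((8, 24), (12, 20)), ((12, 20), (16, 24))]
  else if ty = 8 then [((6, 14), (10, 8)), ((10, 8), (16, 12)), ((16, 12), (12, 20))]
  else []

/-- the links of the tiles -/
def tLE (ty : ℕ) : List (Pt × Pt) :=
  if ty = 1 then [((10, 0), (8, 6)), ((10, 0), (12, 6)), ((10, 20), (8, 14)), ((10, 20), (12, 14)),
      ((0, 10), (4, 6)), ((0, 10), (4, 14)), ((20, 10), (16, 6)), ((20, 10), (16, 14)),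
      ((8, 9), (8, 14)), ((12, 9), (12, 14)), ((20, 10), (28, 4)), ((20, 10), (28, 10)),
      ((20, 10), (28, 16)), ((34, 16), (40, 10)), ((10, 20), (4, 28)), ((10, 20), (10, 28)),
      ((10, 20), (16, 28)), ((16, 34), (10, 40))]
  else if ty = 2 then [((0, 10), (40, 10)), ((0, 10), (10, 40))]
  else if ty = 3 then [((0, 10), (40, 10)), ((0, 10), (4, 28)), ((0, 10), (8, 24)),
      ((0, 10), (12, 20)), ((16, 24), (10, 40))]
  else if ty = 4 then [((0, 10), (40, 10))]
  else if ty = 5 then [((10, 0), (10, 40))]
  else if ty = 6 then [((10, 0), (40, 10))]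
  else if ty = 7 then [((0, 10), (10, 0))]
  else if ty = 8 then [((0, 10), (6, 14)), ((10, 0), (10, 8)), ((40, 10), (16, 12)),
      ((12, 20), (10, 40))]
  else []

/-- the relation between the colours at the ports -/
def rel (ty : ℕ) (n e s w : Bool) : Bool :=
  if ty = 1 then n == s && e == w
  else if ty = 2 then e == w && s == w
  else if ty = 3 then e == w && s == !w
  else if ty = 4 then e == w
  else if ty = 5 then n == s
  else if ty = 6 then n == e
  else if ty = 7 then n == w
  else if ty = 8 then !(n == e && e == s && s == w)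
  else true

/-- the colouring of a tile -/
def lc (ty : ℕ) (n e s w : Bool) (p : Pt) : Bool :=
  if p = (0, 10) then w else if p = (40, 10) then e else if p = (10, 0) then n
  else if p = (10, 40) then s
  else if ty = 1 then
    if p ∈ [(4, 6), (4, 14), (34, 16)] then w
    else if p ∈ [(16, 6), (16, 14), (20, 10), (28, 4), (28, 10), (28, 16)] then !w
    else if p ∈ [(8, 6), (12, 6), (16, 34)] then n
    else !n
  else if ty = 3 then if p = (16, 24) then s else w
  else if p = (6, 14) then w else if p = (10, 8) then n else if p = (16, 12) then e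
  else s

/-- a list with both orientations of its pairs -/
def sym (E : List (Pt × Pt)) : List (Pt × Pt) := E ++ E.map Prod.swap

/-- integer point -/
def tz (p : Pt) : ℤ × ℤ := (p.1, p.2)

/-! ### Checks -/

theorem k_sep : ((List.range 9).all fun ty => (tRE ty ++ tLE ty).all fun e =>
    (tRE ty ++ tLE ty).all fun f => decide (e = f) ||
      sepB (tz e.1) (tz e.2) (tz f.1) (tz f.2)) = true := by decide +kernel

/-- inside the tile -/
def inner (p : Pt) : Bool := decide (0 < p.1 ∧ p.1 < 40 ∧ 0 < p.2 ∧ p.2 < 40)

/-- a port -/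
def port (p : Pt) : Bool := decide (p = (0, 10) ∨ p = (40, 10) ∨ p = (10, 0) ∨ p = (10, 40))

theorem k_re : ((List.range 9).all fun ty => (tRE ty).all fun e =>
    inner e.1 && inner e.2 && decide (e.1 ≠ e.2)) = true := by decide +kernel

theorem k_le : ((List.range 9).all fun ty => (tLE ty).all fun e =>
    (inner e.1 || port e.1) && (inner e.2 || port e.2) && decide (e.1 ≠ e.2) &&
      decide (e ∉ sym (tRE ty))) = true := by decide +kernel

theorem k_side : ((List.range 9).all fun ty => (tRE ty ++ tLE ty).all fun e =>
    decide (0 < e.1.1 ∨ 0 < e.2.1) && decide (e.1.1 < 40 ∨ e.2.1 < 40) &&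
    decide (0 < e.1.2 ∨ 0 < e.2.2) && decide (e.1.2 < 40 ∨ e.2.2 < 40)) = true := by
  decide +kernel

theorem k_link : ((List.range 9).all fun ty => [true, false].all fun n => [true, false].all fun e =>
    [true, false].all fun s => [true, false].all fun w => !(rel ty n e s w) ||
      (tLE ty).all fun l => lc ty n e s w l.1 == lc ty n e s w l.2) = true := by decide +kernel

theorem k_p4 : ((List.range 9).all fun ty => [true, false].all fun n => [true, false].all fun e =>
    [true, false].all fun s => [true, false].all fun w => !(rel ty n e s w) ||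
      (sym (tRE ty)).all fun a => !(lc ty n e s w a.1 == lc ty n e s w a.2) ||
      (sym (tRE ty)).all fun b => !(a.2 == b.1 && lc ty n e s w b.1 == lc ty n e s w b.2) ||
        a.1 == b.2 ||
      (sym (tRE ty)).all fun c => !(b.2 == c.1 && lc ty n e s w c.1 == lc ty n e s w c.2) ||
        b.1 == c.2) = true := by decide +kernel

theorem k_tri : ((List.range 9).all fun ty => (sym (tRE ty)).all fun a =>
    (sym (tRE ty)).all fun b => !(a.1 == b.1) ||
      !(decide ((a.2, b.2) ∈ sym (tRE ty)))) = true := by decide +kernel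

end Pool.Agent.R538.PC
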