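import Mathlib
import Pool.Agent.R538.PC.Tile
import Pool.Agent.R538.PC.Plan

/-!
Graphs made of tiles.
-/

set_option autoImplicit false

namespace Pool.Agent.R538.PC

open Pool.Agent.R50.PlanarCograph

/-- the name of the point `p` of the cell `(i, j)` -/
def idp (M i j : ℕ) (p : Pt) : ℕ := (40 * j + p.1) + M * (40 * i + p.2)

/-- the pairs of all cells -/
def gl (f : ℕ → List (Pt × Pt)) (ty : ℕ → ℕ → ℕ) (R C M : ℕ) : List (ℕ × ℕ) :=
  (List.range R).flatMap fun i => (List.range C).flatMap fun j =>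
    (f (ty i j)).map fun e => (idp M i j e.1, idp M i j e.2)

theorem mem_gl {f : ℕ → List (Pt × Pt)} {ty : ℕ → ℕ → ℕ} {R C M : ℕ} {q : ℕ × ℕ} :
    q ∈ gl f ty R C M ↔ ∃ i < R, ∃ j < C, ∃ e ∈ f (ty i j), q = (idp M i j e.1, idp M i j e.2) := by
  simp only [gl, List.mem_flatMap, List.mem_range, List.mem_map]
  constructor
  · rintro ⟨i, hi, j, hj, e, he, rfl⟩
    exact ⟨i, hi, j, hj, e, he, rfl⟩
  · rintro ⟨i, hi, j, hj, e, he, rfl⟩
    exact ⟨i, hi, j, hj, e, he, rfl⟩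

/-- position of a vertex of the skeleton -/
noncomputable def pos (M w : ℕ) : ℝ × ℝ := (((w % M : ℕ) : ℝ), ((w / M : ℕ) : ℝ))

theorem idp_mod {C i j : ℕ} {p : Pt} (hj : j < C) (hp : p.1 ≤ 40) :
    idp (40 * C + 1) i j p % (40 * C + 1) = 40 * j + p.1 := by
  rw [idp, Nat.add_mul_mod_self_left, Nat.mod_eq_of_lt (by omega)]

theorem idp_div {C i j : ℕ} {p : Pt} (hj : j < C) (hp : p.1 ≤ 40) :
    idp (40 * C + 1) i j p / (40 * C + 1) = 40 * i + p.2 := by
  rw [idp, Nat.add_mul_div_left _ _ (by omega), Nat.div_eq_of_lt (by omega), zero_add]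

theorem pos_idp {C i j : ℕ} {p : Pt} (hj : j < C) (hp : p.1 ≤ 40) :
    pos (40 * C + 1) (idp (40 * C + 1) i j p) = toR (tz p) + ((40 * j : ℝ), (40 * i : ℝ)) := by
  rw [pos, idp_mod hj hp, idp_div hj hp, toR, tz]
  ext <;> push_cast <;> simp <;> ring

theorem pos_inj {M a b : ℕ} (h : pos M a = pos M b) : a = b := by
  have h1 := congrArg Prod.fst h
  have h2 := congrArg Prod.snd h
  simp only [pos, Nat.cast_inj] at h1 h2
  rw [← Nat.mod_add_div a M, ← Nat.mod_add_div b M, h1, h2]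

theorem Sep.translate {e₁ e₂ f₁ f₂ : ℝ × ℝ} (h : Sep e₁ e₂ f₁ f₂) (t : ℝ × ℝ) :
    Sep (e₁ + t) (e₂ + t) (f₁ + t) (f₂ + t) := by
  obtain ⟨a, b, c, h1⟩ := h
  have : ∀ p, ell a b (c - a * t.1 - b * t.2) (p + t) = ell a b c p := by
    intro p
    simp only [ell, Prod.fst_add, Prod.snd_add]
    ring
  exact ⟨a, b, c - a * t.1 - b * t.2, by simpa only [this] using h1⟩

/-! ### Facts on tiles -/

theorem t_sep {ty : ℕ} (ht : ty < 9) {e f : Pt × Pt} (he : e ∈ tRE ty ++ tLE ty)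
    (hf : f ∈ tRE ty ++ tLE ty) (hne : e ≠ f) :
    Sep (toR (tz e.1)) (toR (tz e.2)) (toR (tz f.1)) (toR (tz f.2)) := by
  have h1 := all_range k_sep ty ht
  rw [List.all_eq_true] at h1
  have h2 := h1 e he
  rw [List.all_eq_true] at h2
  have h3 := h2 f hf
  simp only [Bool.or_eq_true, decide_eq_true_eq] at h3
  exact sepB_sep (h3.resolve_left hne)

theorem t_re {ty : ℕ} (ht : ty < 9) {e : Pt × Pt} (he : e ∈ tRE ty) :
    inner e.1 = true ∧ inner e.2 = true ∧ e.1 ≠ e.2 := by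
  have h1 := all_range k_re ty ht
  rw [List.all_eq_true] at h1
  have h2 := h1 e he
  simpa [and_assoc] using h2

theorem t_le {ty : ℕ} (ht : ty < 9) {e : Pt × Pt} (he : e ∈ tLE ty) :
    (inner e.1 = true ∨ port e.1 = true) ∧ (inner e.2 = true ∨ port e.2 = true) ∧ e.1 ≠ e.2 ∧
      e ∉ sym (tRE ty) := by
  have h1 := all_range k_le ty ht
  rw [List.all_eq_true] at h1
  have h2 := h1 e he
  simp only [Bool.and_eq_true, Bool.or_eq_true, decide_eq_true_eq] at h2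
  exact ⟨h2.1.1.1, h2.1.1.2, h2.1.2, h2.2⟩

theorem t_side {ty : ℕ} (ht : ty < 9) {e : Pt × Pt} (he : e ∈ tRE ty ++ tLE ty) :
    (0 < e.1.1 ∨ 0 < e.2.1) ∧ (e.1.1 < 40 ∨ e.2.1 < 40) ∧ (0 < e.1.2 ∨ 0 < e.2.2) ∧
      (e.1.2 < 40 ∨ e.2.2 < 40) := by
  have h1 := all_range k_side ty ht
  rw [List.all_eq_true] at h1
  have h2 := h1 e he
  simp only [Bool.and_eq_true, decide_eq_true_eq] at h2
  exact ⟨h2.1.1.1, h2.1.1.2, h2.1.2, h2.2⟩

theorem inner_iff {p : Pt} : inner p = true ↔ 0 < p.1 ∧ p.1 < 40 ∧ 0 < p.2 ∧ p.2 < 40 := by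
  rw [inner, decide_eq_true_eq]

theorem port_iff {p : Pt} : port p = true ↔
    p = (0, 10) ∨ p = (40, 10) ∨ p = (10, 0) ∨ p = (10, 40) := by
  rw [port, decide_eq_true_eq]

theorem le40 {p : Pt} (h : inner p = true ∨ port p = true) : p.1 ≤ 40 ∧ p.2 ≤ 40 := by
  rw [inner_iff, port_iff] at h
  rcases h with h | h | h | h | h
  · omega
  all_goals rw [h]; simp

theorem t_all {ty : ℕ} (ht : ty < 9) {e : Pt × Pt} (he : e ∈ tRE ty ++ tLE ty) :
    (inner e.1 = true ∨ port e.1 = true) ∧ (inner e.2 = true ∨ port e.2 = true) ∧ e.1 ≠ e.2 := by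
  rcases List.mem_append.1 he with h | h
  · obtain ⟨h1, h2, h3⟩ := t_re ht h
    exact ⟨Or.inl h1, Or.inl h2, h3⟩
  · obtain ⟨h1, h2, h3, -⟩ := t_le ht h
    exact ⟨h1, h2, h3⟩

theorem mem_sym {E : List (Pt × Pt)} {a b : Pt} : (a, b) ∈ sym E ↔ (a, b) ∈ E ∨ (b, a) ∈ E := by
  simp only [sym, List.mem_append, List.mem_map]
  constructor
  · rintro (h | ⟨e, he, h⟩)
    · exact Or.inl h
    · right
      have : e = (b, a) := by
        rw [← Prod.swap_swap e, h]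
        rfl
      rw [← this]
      exact he
  · rintro (h | h)
    · exact Or.inl h
    · exact Or.inr ⟨_, h, rfl⟩

/-! ### The skeleton made of tiles -/

section Grid

variable {ty : ℕ → ℕ → ℕ} {R C : ℕ} (hty : ∀ i j, ty i j < 9)

/-- the real edges -/
abbrev RE (ty : ℕ → ℕ → ℕ) (R C : ℕ) : List (ℕ × ℕ) := gl tRE ty R C (40 * C + 1)
/-- the links -/
abbrev LE (ty : ℕ → ℕ → ℕ) (R C : ℕ) : List (ℕ × ℕ) := gl tLE ty R C (40 * C + 1)
/-- the name of a point -/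
abbrev nm (C i j : ℕ) (p : Pt) : ℕ := idp (40 * C + 1) i j p

theorem nm_inj {i j i' j' : ℕ} {p p' : Pt} (hj : j < C) (hj' : j' < C) (hp : inner p = true)
    (hp' : p'.1 ≤ 40 ∧ p'.2 ≤ 40) (h : nm C i j p = nm C i' j' p') :
    i = i' ∧ j = j' ∧ p = p' := by
  rw [inner_iff] at hp
  have h1 := congrArg (fun w => w % (40 * C + 1)) h
  have h2 := congrArg (fun w => w / (40 * C + 1)) h
  simp only [nm] at h1 h2
  rw [idp_mod hj (by omega), idp_mod hj' hp'.1] at h1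
  rw [idp_div hj (by omega), idp_div hj' hp'.1] at h2
  refine ⟨by omega, by omega, Prod.ext (by omega) (by omega)⟩

theorem nm_inj' {i j : ℕ} {p p' : Pt} (hj : j < C) (hp : p.1 ≤ 40) (hp' : p'.1 ≤ 40)
    (h : nm C i j p = nm C i j p') : p = p' := by
  have h1 := congrArg (fun w => w % (40 * C + 1)) h
  have h2 := congrArg (fun w => w / (40 * C + 1)) h
  simp only [nm] at h1 h2
  rw [idp_mod hj hp, idp_mod hj hp'] at h1
  rw [idp_div hj hp, idp_div hj hp'] at h2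
  exact Prod.ext (by omega) (by omega)

include hty

/-- the real neighbours of an inner point -/
theorem re_adj {i j : ℕ} (hj : j < C) {p : Pt} (hp : inner p = true) {b : ℕ}
    (h : LAdj (RE ty R C) (nm C i j p) b) :
    i < R ∧ ∃ q, inner q = true ∧ b = nm C i j q ∧ (p, q) ∈ sym (tRE (ty i j)) := by
  rcases h with h | h
  · obtain ⟨i', hi', j', hj', e, he, h1⟩ := mem_gl.1 h
    obtain ⟨a1, a2, a3⟩ := t_re (hty i' j') he
    obtain ⟨rfl, rfl, rfl⟩ := nm_inj hj hj' hp (le40 (Or.inl a1)) (congrArg Prod.fst h1)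
    exact ⟨hi', e.2, a2, congrArg Prod.snd h1, mem_sym.2 (Or.inl he)⟩
  · obtain ⟨i', hi', j', hj', e, he, h1⟩ := mem_gl.1 h
    obtain ⟨a1, a2, a3⟩ := t_re (hty i' j') he
    obtain ⟨rfl, rfl, rfl⟩ := nm_inj hj hj' hp (le40 (Or.inl a2)) (congrArg Prod.snd h1)
    exact ⟨hi', e.1, a1, congrArg Prod.fst h1, mem_sym.2 (Or.inr he)⟩

/-- adjacency of two inner points of the same cell -/
theorem re_adj_iff {i j : ℕ} (hi : i < R) (hj : j < C) {p q : Pt} (hp : inner p = true)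
    (hq : inner q = true) :
    LAdj (RE ty R C) (nm C i j p) (nm C i j q) ↔ (p, q) ∈ sym (tRE (ty i j)) := by
  constructor
  · intro h
    obtain ⟨-, q', hq', h1, h2⟩ := re_adj hty hj hp h
    obtain ⟨-, -, rfl⟩ := nm_inj hj hj hq (le40 (Or.inl hq')) h1
    exact h2
  · intro h
    rcases mem_sym.1 h with h | h
    · exact Or.inl (mem_gl.2 ⟨i, hi, j, hj, _, h, rfl⟩)
    · exact Or.inr (mem_gl.2 ⟨i, hi, j, hj, _, h, rfl⟩)

/-- every real edge lies in a cell -/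
theorem re_cell {a b : ℕ} (h : LAdj (RE ty R C) a b) :
    ∃ i < R, ∃ j < C, ∃ p, inner p = true ∧ a = nm C i j p := by
  rcases h with h | h
  · obtain ⟨i', hi', j', hj', e, he, h1⟩ := mem_gl.1 h
    exact ⟨i', hi', j', hj', e.1, (t_re (hty i' j') he).1, congrArg Prod.fst h1⟩
  · obtain ⟨i', hi', j', hj', e, he, h1⟩ := mem_gl.1 h
    exact ⟨i', hi', j', hj', e.2, (t_re (hty i' j') he).2.1, congrArg Prod.snd h1⟩

theorem skel : Skel (RE ty R C) (LE ty R C) where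
  loop := by
    intro q hq
    obtain ⟨i, hi, j, hj, e, he, rfl⟩ := mem_gl.1 hq
    obtain ⟨a1, a2, a3⟩ := t_re (hty i j) he
    exact fun h => a3 (nm_inj' hj (le40 (Or.inl a1)).1 (le40 (Or.inl a2)).1 h)
  ne := by
    intro q hq
    obtain ⟨i, hi, j, hj, e, he, rfl⟩ := mem_gl.1 hq
    obtain ⟨a1, a2, a3, -⟩ := t_le (hty i j) he
    exact fun h => a3 (nm_inj' hj (le40 a1).1 (le40 a2).1 h)
  nadj := by
    intro q hq h
    obtain ⟨i, hi, j, hj, e, he, rfl⟩ := mem_gl.1 hq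
    obtain ⟨a1, a2, a3, a4⟩ := t_le (hty i j) he
    simp only at h
    obtain ⟨i', hi', j', hj', p, hp, h1⟩ := re_cell hty h
    obtain ⟨rfl, rfl, rfl⟩ := nm_inj hj' hj hp (le40 a1) h1.symm
    obtain ⟨-, q', hq', h2, h3⟩ := re_adj hty hj hp h
    obtain ⟨-, -, h4⟩ := nm_inj hj hj hq' (le40 a2) h2.symm
    apply a4
    rw [h4] at h3
    exact h3

/-- separation of the objects of two cells in different columns -/
theorem sep_col {i j i' j' : ℕ} (hj : j < C) (hj' : j' < C) (hlt : j < j') {e f : Pt × Pt}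
    (he : e ∈ tRE (ty i j) ++ tLE (ty i j)) (hf : f ∈ tRE (ty i' j') ++ tLE (ty i' j')) :
    Sep (pos (40 * C + 1) (nm C i j e.1)) (pos (40 * C + 1) (nm C i j e.2))
      (pos (40 * C + 1) (nm C i' j' f.1)) (pos (40 * C + 1) (nm C i' j' f.2)) := by
  obtain ⟨a1, a2, -⟩ := t_all (hty i j) he
  obtain ⟨b1, b2, -⟩ := t_all (hty i' j') hf
  have s1 := t_side (hty i j) he
  have s2 := t_side (hty i' j') hf
  refine ⟨-1, 0, 40 * j', ?_⟩
  simp only [pos, ell, nm]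
  rw [idp_mod hj (le40 a1).1, idp_mod hj (le40 a2).1, idp_mod hj' (le40 b1).1,
    idp_mod hj' (le40 b2).1]
  have c1 := (le40 a1).1
  have c2 := (le40 a2).1
  have h1 : 40 * j + e.1.1 ≤ 40 * j' := by omega
  have h2 : 40 * j + e.2.1 ≤ 40 * j' := by omega
  have h3 : 40 * j + e.1.1 < 40 * j' ∨ 40 * j + e.2.1 < 40 * j' := by omega
  have h4 : 40 * j' < 40 * j' + f.1.1 ∨ 40 * j' < 40 * j' + f.2.1 := by omega
  have g1 : ((40 * j + e.1.1 : ℕ) : ℝ) ≤ (40 * j' : ℕ) := by exact_mod_cast h1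
  have g2 : ((40 * j + e.2.1 : ℕ) : ℝ) ≤ (40 * j' : ℕ) := by exact_mod_cast h2
  have g3 : ((40 * j + e.1.1 : ℕ) : ℝ) < (40 * j' : ℕ) ∨ ((40 * j + e.2.1 : ℕ) : ℝ) < (40 * j' : ℕ) := by
    exact_mod_cast h3
  have g4 : ((40 * j' : ℕ) : ℝ) < (40 * j' + f.1.1 : ℕ) ∨ ((40 * j' : ℕ) : ℝ) < (40 * j' + f.2.1 : ℕ) := by
    exact_mod_cast h4
  have g5 : ((40 * j' : ℕ) : ℝ) ≤ (40 * j' + f.1.1 : ℕ) := by
    exact_mod_cast Nat.le_add_right _ _
  have g6 : ((40 * j' : ℕ) : ℝ) ≤ (40 * j' + f.2.1 : ℕ) := by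
    exact_mod_cast Nat.le_add_right _ _
  have g7 : ((40 * j' : ℕ) : ℝ) = 40 * (j' : ℝ) := by push_cast; ring
  rw [g7] at g1 g2 g3 g4 g5 g6
  refine ⟨by linarith, by linarith, by linarith, by linarith, ?_, ?_⟩
  · rcases g3 with g | g
    · left; linarith
    · right; linarith
  · rcases g4 with g | g
    · left; linarith
    · right; linarith

/-- separation of the objects of two cells in different rows -/
theorem sep_row {i j i' j' : ℕ} (hj : j < C) (hj' : j' < C) (hlt : i < i') {e f : Pt × Pt}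
    (he : e ∈ tRE (ty i j) ++ tLE (ty i j)) (hf : f ∈ tRE (ty i' j') ++ tLE (ty i' j')) :
    Sep (pos (40 * C + 1) (nm C i j e.1)) (pos (40 * C + 1) (nm C i j e.2))
      (pos (40 * C + 1) (nm C i' j' f.1)) (pos (40 * C + 1) (nm C i' j' f.2)) := by
  obtain ⟨a1, a2, -⟩ := t_all (hty i j) he
  obtain ⟨b1, b2, -⟩ := t_all (hty i' j') hf
  have s1 := t_side (hty i j) he
  have s2 := t_side (hty i' j') hf
  refine ⟨0, -1, 40 * i', ?_⟩
  simp only [pos, ell, nm]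
  rw [idp_div hj (le40 a1).1, idp_div hj (le40 a2).1, idp_div hj' (le40 b1).1,
    idp_div hj' (le40 b2).1]
  have c1 := (le40 a1).2
  have c2 := (le40 a2).2
  have h1 : 40 * i + e.1.2 ≤ 40 * i' := by omega
  have h2 : 40 * i + e.2.2 ≤ 40 * i' := by omega
  have h3 : 40 * i + e.1.2 < 40 * i' ∨ 40 * i + e.2.2 < 40 * i' := by omega
  have h4 : 40 * i' < 40 * i' + f.1.2 ∨ 40 * i' < 40 * i' + f.2.2 := by omega
  have g1 : ((40 * i + e.1.2 : ℕ) : ℝ) ≤ (40 * i' : ℕ) := by exact_mod_cast h1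
  have g2 : ((40 * i + e.2.2 : ℕ) : ℝ) ≤ (40 * i' : ℕ) := by exact_mod_cast h2
  have g3 : ((40 * i + e.1.2 : ℕ) : ℝ) < (40 * i' : ℕ) ∨ ((40 * i + e.2.2 : ℕ) : ℝ) < (40 * i' : ℕ) := by
    exact_mod_cast h3
  have g4 : ((40 * i' : ℕ) : ℝ) < (40 * i' + f.1.2 : ℕ) ∨ ((40 * i' : ℕ) : ℝ) < (40 * i' + f.2.2 : ℕ) := by
    exact_mod_cast h4
  have g5 : ((40 * i' : ℕ) : ℝ) ≤ (40 * i' + f.1.2 : ℕ) := by
    exact_mod_cast Nat.le_add_right _ _
  have g6 : ((40 * i' : ℕ) : ℝ) ≤ (40 * i' + f.2.2 : ℕ) := by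
    exact_mod_cast Nat.le_add_right _ _
  have g7 : ((40 * i' : ℕ) : ℝ) = 40 * (i' : ℝ) := by push_cast; ring
  rw [g7] at g1 g2 g3 g4 g5 g6
  refine ⟨by linarith, by linarith, by linarith, by linarith, ?_, ?_⟩
  · rcases g3 with g | g
    · left; linarith
    · right; linarith
  · rcases g4 with g | g
    · left; linarith
    · right; linarith

theorem pskel : PSkel (RE ty R C) (LE ty R C) (pos (40 * C + 1)) where
  toSkel := skel hty
  inj := fun _ _ _ _ _ _ _ _ h => pos_inj h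
  sep := by
    have key : ∀ q ∈ RE ty R C ++ LE ty R C, ∃ i j, j < C ∧ ∃ e ∈ tRE (ty i j) ++ tLE (ty i j),
        q = (nm C i j e.1, nm C i j e.2) := by
      intro q hq
      rcases List.mem_append.1 hq with h | h
      · obtain ⟨i, hi, j, hj, e, he, rfl⟩ := mem_gl.1 h
        exact ⟨i, j, hj, e, List.mem_append_left _ he, rfl⟩
      · obtain ⟨i, hi, j, hj, e, he, rfl⟩ := mem_gl.1 h
        exact ⟨i, j, hj, e, List.mem_append_right _ he, rfl⟩
    intro q hq q' hq' hne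
    obtain ⟨i, j, hj, e, he, rfl⟩ := key q hq
    obtain ⟨i', j', hj', f, hf, rfl⟩ := key q' hq'
    rcases lt_trichotomy j j' with h | h | h
    · exact sep_col hty hj hj' h he hf
    · subst h
      rcases lt_trichotomy i i' with h | h | h
      · exact sep_row hty hj hj' h he hf
      · subst h
        have hef : e ≠ f := fun h => hne (by rw [h])
        obtain ⟨a1, a2, -⟩ := t_all (hty i j) he
        obtain ⟨b1, b2, -⟩ := t_all (hty i j) hf
        have := (t_sep (hty i j) he hf hef).translate ((40 * j : ℝ), (40 * i : ℝ))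
        simp only [nm]
        rw [pos_idp hj (le40 a1).1, pos_idp hj (le40 a2).1, pos_idp hj (le40 b1).1,
          pos_idp hj (le40 b2).1]
        exact this
      · exact (sep_row hty hj' hj h hf he).symm
    · exact (sep_col hty hj' hj h hf he).symm

end Grid

end Pool.Agent.R538.PC
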