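import Mathlib
import Pool.Agent.R538.PC.Grid

/-!
Colourings of the graphs made of tiles.
-/

set_option autoImplicit false

namespace Pool.Agent.R538.PC

open Pool.Agent.R50.PlanarCograph

section

variable {ty : ℕ → ℕ → ℕ} {R C : ℕ} (hty : ∀ i j, ty i j < 9)

/-- the global colouring -/
def gc (ty : ℕ → ℕ → ℕ) (C : ℕ) (h v : ℕ → ℕ → Bool) (w : ℕ) : Bool :=
  if w % (40 * C + 1) % 40 = 0 then
    h (w / (40 * C + 1) / 40) (w % (40 * C + 1) / 40)
  else if w / (40 * C + 1) % 40 = 0 then
    v (w / (40 * C + 1) / 40) (w % (40 * C + 1) / 40)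
  else
    lc (ty (w / (40 * C + 1) / 40) (w % (40 * C + 1) / 40))
      (v (w / (40 * C + 1) / 40) (w % (40 * C + 1) / 40))
      (h (w / (40 * C + 1) / 40) (w % (40 * C + 1) / 40 + 1))
      (v (w / (40 * C + 1) / 40 + 1) (w % (40 * C + 1) / 40))
      (h (w / (40 * C + 1) / 40) (w % (40 * C + 1) / 40))
      (w % (40 * C + 1) % 40, w / (40 * C + 1) % 40)

theorem gc_nm (h v : ℕ → ℕ → Bool) {i j : ℕ} (hj : j < C) {p : Pt}
    (hp : inner p = true ∨ port p = true) :
    gc ty C h v (nm C i j p) = lc (ty i j) (v i j) (h i (j + 1)) (v (i + 1) j) (h i j) p := by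
  rw [gc, nm, idp_mod hj (le40 hp).1, idp_div hj (le40 hp).1]
  rw [inner_iff, port_iff] at hp
  rcases hp with hp | hp | hp | hp | hp
  · have e1 : (40 * j + p.1) % 40 = p.1 := by omega
    have e2 : (40 * j + p.1) / 40 = j := by omega
    have e3 : (40 * i + p.2) % 40 = p.2 := by omega
    have e4 : (40 * i + p.2) / 40 = i := by omega
    rw [e1, e2, e3, e4, if_neg (by omega), if_neg (by omega)]
  · subst hp
    have e1 : (40 * j + 0) % 40 = 0 := by omega
    have e2 : (40 * j + 0) / 40 = j := by omega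
    have e4 : (40 * i + 10) / 40 = i := by omega
    rw [e1, e2, e4, if_pos rfl]
    simp [lc]
  · subst hp
    have e1 : (40 * j + 40) % 40 = 0 := by omega
    have e2 : (40 * j + 40) / 40 = j + 1 := by omega
    have e4 : (40 * i + 10) / 40 = i := by omega
    rw [e1, e2, e4, if_pos rfl]
    simp [lc]
  · subst hp
    have e1 : (40 * j + 10) % 40 = 10 := by omega
    have e2 : (40 * j + 10) / 40 = j := by omega
    have e3 : (40 * i + 0) % 40 = 0 := by omega
    have e4 : (40 * i + 0) / 40 = i := by omega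
    rw [e1, e2, e3, e4, if_neg (by omega), if_pos rfl]
    simp [lc]
  · subst hp
    have e1 : (40 * j + 10) % 40 = 10 := by omega
    have e2 : (40 * j + 10) / 40 = j := by omega
    have e3 : (40 * i + 40) % 40 = 0 := by omega
    have e4 : (40 * i + 40) / 40 = i + 1 := by omega
    rw [e1, e2, e3, e4, if_neg (by omega), if_pos rfl]
    simp [lc]

theorem mem_bools (b : Bool) : b ∈ [true, false] := by cases b <;> simp

theorem t_link {t : ℕ} (ht : t < 9) {n e s w : Bool} (h : rel t n e s w = true) {l : Pt × Pt}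
    (hl : l ∈ tLE t) : lc t n e s w l.1 = lc t n e s w l.2 := by
  have h1 := all_range k_link t ht
  rw [List.all_eq_true] at h1
  have h1 := h1 n (mem_bools n)
  rw [List.all_eq_true] at h1
  have h1 := h1 e (mem_bools e)
  rw [List.all_eq_true] at h1
  have h1 := h1 s (mem_bools s)
  rw [List.all_eq_true] at h1
  have h1 := h1 w (mem_bools w)
  rw [h, Bool.not_true, Bool.false_or, List.all_eq_true] at h1
  simpa using h1 l hl

theorem t_p4 {t : ℕ} (ht : t < 9) {n e s w : Bool} (h : rel t n e s w = true) {p q r u : Pt}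
    (h1 : (p, q) ∈ sym (tRE t)) (h2 : (q, r) ∈ sym (tRE t)) (h3 : (r, u) ∈ sym (tRE t))
    (c1 : lc t n e s w p = lc t n e s w q) (c2 : lc t n e s w q = lc t n e s w r)
    (c3 : lc t n e s w r = lc t n e s w u) : p = r ∨ q = u := by
  have k := all_range k_p4 t ht
  rw [List.all_eq_true] at k
  have k := k n (mem_bools n)
  rw [List.all_eq_true] at k
  have k := k e (mem_bools e)
  rw [List.all_eq_true] at k
  have k := k s (mem_bools s)
  rw [List.all_eq_true] at k
  have k := k w (mem_bools w)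
  rw [h, Bool.not_true, Bool.false_or, List.all_eq_true] at k
  have k := k _ h1
  rw [c1] at k
  simp only [beq_self_eq_true, Bool.not_true, Bool.false_or] at k
  rw [List.all_eq_true] at k
  have k := k _ h2
  rw [c2] at k
  simp only [beq_self_eq_true, Bool.and_self, Bool.not_true, Bool.false_or] at k
  rw [Bool.or_eq_true] at k
  rcases k with k | k
  · left; simpa using k
  · rw [List.all_eq_true] at k
    have k := k _ h3
    rw [c3] at k
    simp only [beq_self_eq_true, Bool.and_self, Bool.not_true, Bool.false_or] at k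
    right; simpa using k

theorem t_tri {t : ℕ} (ht : t < 9) {p q r : Pt} (h1 : (p, q) ∈ sym (tRE t))
    (h2 : (p, r) ∈ sym (tRE t)) (h3 : (q, r) ∈ sym (tRE t)) : False := by
  have k := all_range k_tri t ht
  rw [List.all_eq_true] at k
  have k := k _ h1
  rw [List.all_eq_true] at k
  have k := k _ h2
  simp [h3] at k

include hty

theorem re_noTri (a b c : ℕ) (h1 : LAdj (RE ty R C) a b) (h2 : LAdj (RE ty R C) a c)
    (h3 : LAdj (RE ty R C) b c) : False := by
  obtain ⟨i, hi, j, hj, p, hp, rfl⟩ := re_cell hty h1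
  obtain ⟨-, q, hq, rfl, e1⟩ := re_adj hty hj hp h1
  obtain ⟨-, r, hr, rfl, e2⟩ := re_adj hty hj hp h2
  rw [re_adj_iff hty hi hj hq hr] at h3
  exact t_tri (hty i j) e1 e2 h3

theorem gc_good {h v : ℕ → ℕ → Bool} (hrel : ∀ i < R, ∀ j < C,
    rel (ty i j) (v i j) (h i (j + 1)) (v (i + 1) j) (h i j) = true) :
    Good (LAdj (RE ty R C)) (gc ty C h v) := by
  rintro a b c d ⟨h1, h2, h3, -, -, -, h7, -, h9⟩ ⟨c1, c2, c3⟩
  obtain ⟨i, hi, j, hj, p, hp, rfl⟩ := re_cell hty h1
  obtain ⟨-, q, hq, rfl, e1⟩ := re_adj hty hj hp h1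
  obtain ⟨-, r, hr, rfl, e2⟩ := re_adj hty hj hq h2
  obtain ⟨-, u, hu, rfl, e3⟩ := re_adj hty hj hr h3
  rw [gc_nm h v hj (Or.inl hp), gc_nm h v hj (Or.inl hq)] at c1
  rw [gc_nm h v hj (Or.inl hq), gc_nm h v hj (Or.inl hr)] at c2
  rw [gc_nm h v hj (Or.inl hr), gc_nm h v hj (Or.inl hu)] at c3
  rcases t_p4 (hty i j) (hrel i hi j hj) e1 e2 e3 c1 c2 c3 with h | h
  · exact h7 (by rw [h])
  · exact h9 (by rw [h])

theorem gc_link {h v : ℕ → ℕ → Bool} (hrel : ∀ i < R, ∀ j < C,
    rel (ty i j) (v i j) (h i (j + 1)) (v (i + 1) j) (h i j) = true) :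
    ∀ e ∈ LE ty R C, gc ty C h v e.1 = gc ty C h v e.2 := by
  intro e he
  obtain ⟨i, hi, j, hj, l, hl, rfl⟩ := mem_gl.1 he
  obtain ⟨a1, a2, -⟩ := t_le (hty i j) hl
  have := t_link (hty i j) (hrel i hi j hj) hl
  rw [← gc_nm h v hj a1, ← gc_nm h v hj a2] at this
  exact this

omit hty

/-! ### Soundness of the tiles -/

/-- an induced path of a tile -/
def pth (t : ℕ) (a b c d : Pt) : Bool :=
  decide ((a, b) ∈ sym (tRE t)) && decide ((b, c) ∈ sym (tRE t)) && decide ((c, d) ∈ sym (tRE t)) &&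
    !decide ((a, c) ∈ sym (tRE t)) && !decide ((a, d) ∈ sym (tRE t)) &&
    !decide ((b, d) ∈ sym (tRE t)) && !decide (a = c) && !decide (a = d) && !decide (b = d)

theorem t_sound {t : ℕ} (ht : t < 9) (f : Pt → Bool) (hL : ∀ e ∈ tLE t, f e.1 = f e.2)
    (hP : ∀ a b c d : Pt, pth t a b c d = true → ¬ (f a = f b ∧ f b = f c ∧ f c = f d)) :
    rel t (f (10, 0)) (f (40, 10)) (f (10, 40)) (f (0, 10)) = true := by
  interval_cases t
  · rfl
  · have l1 := hL ((10, 0), (8, 6)) (by decide +kernel)
    have l2 := hL ((10, 0), (12, 6)) (by decide +kernel)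
    have l3 := hL ((10, 20), (8, 14)) (by decide +kernel)
    have l4 := hL ((10, 20), (12, 14)) (by decide +kernel)
    have l5 := hL ((0, 10), (4, 6)) (by decide +kernel)
    have l6 := hL ((0, 10), (4, 14)) (by decide +kernel)
    have l7 := hL ((20, 10), (16, 6)) (by decide +kernel)
    have l8 := hL ((20, 10), (16, 14)) (by decide +kernel)
    have l9 := hL ((8, 9), (8, 14)) (by decide +kernel)
    have l10 := hL ((12, 9), (12, 14)) (by decide +kernel)
    have l11 := hL ((20, 10), (28, 4)) (by decide +kernel)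
    have l12 := hL ((20, 10), (28, 10)) (by decide +kernel)
    have l13 := hL ((20, 10), (28, 16)) (by decide +kernel)
    have l14 := hL ((34, 16), (40, 10)) (by decide +kernel)
    have l15 := hL ((10, 20), (4, 28)) (by decide +kernel)
    have l16 := hL ((10, 20), (10, 28)) (by decide +kernel)
    have l17 := hL ((10, 20), (16, 28)) (by decide +kernel)
    have l18 := hL ((16, 34), (10, 40)) (by decide +kernel)
    have p1 := hP (4, 6) (8, 6) (12, 6) (16, 6) (by decide +kernel)
    have p2 := hP (4, 14) (8, 14) (12, 14) (16, 14) (by decide +kernel)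
    have p3 := hP (8, 9) (8, 6) (12, 6) (12, 9) (by decide +kernel)
    have p4 := hP (28, 4) (28, 10) (28, 16) (34, 16) (by decide +kernel)
    have p5 := hP (4, 28) (10, 28) (16, 28) (16, 34) (by decide +kernel)
    simp only at l1 l2 l3 l4 l5 l6 l7 l8 l9 l10 l11 l12 l13 l14 l15 l16 l17 l18
    rw [← l1, ← l2, ← l5, ← l7] at p1
    rw [← l3, ← l4, ← l6, ← l8] at p2
    rw [l9, l10, ← l1, ← l2, ← l3, ← l4] at p3
    rw [← l11, ← l12, ← l13, l14] at p4
    rw [← l15, ← l16, ← l17, l18] at p5
    clear l1 l2 l3 l4 l5 l6 l7 l8 l9 l10 l11 l12 l13 l14 l15 l16 l17 l18 hL hP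
    revert p1 p2 p3 p4 p5
    generalize f (10, 0) = n
    generalize f (0, 10) = w
    generalize f (20, 10) = k
    generalize f (10, 20) = m
    generalize f (40, 10) = e
    generalize f (10, 40) = s
    revert n w k m e s
    decide +kernel
  · have l1 := hL ((0, 10), (40, 10)) (by decide +kernel)
    have l2 := hL ((0, 10), (10, 40)) (by decide +kernel)
    simp only at l1 l2
    rw [← l1, ← l2]
    simp [rel]
  · have l1 := hL ((0, 10), (40, 10)) (by decide +kernel)
    have l2 := hL ((0, 10), (4, 28)) (by decide +kernel)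
    have l3 := hL ((0, 10), (8, 24)) (by decide +kernel)
    have l4 := hL ((0, 10), (12, 20)) (by decide +kernel)
    have l5 := hL ((16, 24), (10, 40)) (by decide +kernel)
    have p1 := hP (4, 28) (8, 24) (12, 20) (16, 24) (by decide +kernel)
    simp only at l1 l2 l3 l4 l5
    rw [← l2, ← l3, ← l4, l5] at p1
    rw [← l1]
    clear l1 l2 l3 l4 l5 hL hP
    revert p1
    generalize f (10, 0) = n
    generalize f (0, 10) = w
    generalize f (10, 40) = s
    revert n w s
    decide +kernel
  · have l1 := hL ((0, 10), (40, 10)) (by decide +kernel)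
    simp only at l1
    rw [← l1]
    simp [rel]
  · have l1 := hL ((10, 0), (10, 40)) (by decide +kernel)
    simp only at l1
    rw [← l1]
    simp [rel]
  · have l1 := hL ((10, 0), (40, 10)) (by decide +kernel)
    simp only at l1
    rw [← l1]
    simp [rel]
  · have l1 := hL ((0, 10), (10, 0)) (by decide +kernel)
    simp only at l1
    rw [← l1]
    simp [rel]
  · have l1 := hL ((0, 10), (6, 14)) (by decide +kernel)
    have l2 := hL ((10, 0), (10, 8)) (by decide +kernel)
    have l3 := hL ((40, 10), (16, 12)) (by decide +kernel)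
    have l4 := hL ((12, 20), (10, 40)) (by decide +kernel)
    have p1 := hP (6, 14) (10, 8) (16, 12) (12, 20) (by decide +kernel)
    simp only at l1 l2 l3 l4
    rw [← l1, ← l2, ← l3, l4] at p1
    clear l1 l2 l3 l4 hL hP
    revert p1
    generalize f (10, 0) = n
    generalize f (0, 10) = w
    generalize f (10, 40) = s
    generalize f (40, 10) = e
    revert n w s e
    decide +kernel

theorem sym_inner {t : ℕ} (ht : t < 9) {p q : Pt} (h : (p, q) ∈ sym (tRE t)) :
    inner p = true ∧ inner q = true := by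
  rcases mem_sym.1 h with h | h
  · exact ⟨(t_re ht h).1, (t_re ht h).2.1⟩
  · exact ⟨(t_re ht h).2.1, (t_re ht h).1⟩

include hty

theorem cell_rel {col : ℕ → Bool} (hg : Good (LAdj (RE ty R C)) col)
    (hl : ∀ e ∈ LE ty R C, col e.1 = col e.2) {i j : ℕ} (hi : i < R) (hj : j < C) :
    rel (ty i j) (col (nm C i j (10, 0))) (col (nm C i j (40, 10))) (col (nm C i j (10, 40)))
      (col (nm C i j (0, 10))) = true := by
  refine t_sound (hty i j) (fun p => col (nm C i j p)) ?_ ?_
  · intro e he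
    exact hl _ (mem_gl.2 ⟨i, hi, j, hj, e, he, rfl⟩)
  · intro a b c d hp
    simp only [pth, Bool.and_eq_true, Bool.not_eq_true', decide_eq_true_eq,
      decide_eq_false_iff_not] at hp
    obtain ⟨⟨⟨⟨⟨⟨⟨⟨h1, h2⟩, h3⟩, h4⟩, h5⟩, h6⟩, h7⟩, h8⟩, h9⟩ := hp
    obtain ⟨ia, ib⟩ := sym_inner (hty i j) h1
    obtain ⟨ic, id⟩ := sym_inner (hty i j) h3
    have le := fun {p : Pt} (hp : inner p = true) => (le40 (p := p) (Or.inl hp)).1
    refine hg _ _ _ _ ⟨(re_adj_iff hty hi hj ia ib).2 h1, (re_adj_iff hty hi hj ib ic).2 h2,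
      (re_adj_iff hty hi hj ic id).2 h3, ?_, ?_, ?_, ?_, ?_, ?_⟩
    · rw [re_adj_iff hty hi hj ia ic]; exact h4
    · rw [re_adj_iff hty hi hj ia id]; exact h5
    · rw [re_adj_iff hty hi hj ib id]; exact h6
    · exact fun h => h7 (nm_inj' hj (le ia) (le ic) h)
    · exact fun h => h8 (nm_inj' hj (le ia) (le id) h)
    · exact fun h => h9 (nm_inj' hj (le ib) (le id) h)

omit hty

theorem nm_east (C i j : ℕ) : nm C i j (40, 10) = nm C i (j + 1) (0, 10) := by
  simp only [nm, idp]; ring

theorem nm_south (C i j : ℕ) : nm C i j (10, 40) = nm C (i + 1) j (10, 0) := by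
  simp only [nm, idp]; ring

/-! ### Summary -/

/-- A solution of the grid of relations. -/
def Sol (ty : ℕ → ℕ → ℕ) (R C : ℕ) (h v : ℕ → ℕ → Bool) : Prop :=
  ∀ i < R, ∀ j < C, rel (ty i j) (v i j) (h i (j + 1)) (v (i + 1) j) (h i j) = true

/-- The expanded graph has a good colouring if and only if the grid of relations has a solution. -/
theorem good_iff (hty : ∀ i j, ty i j < 9) :
    (∃ col, Good (LAdj (xE (RE ty R C) (LE ty R C))) col) ↔ ∃ h v, Sol ty R C h v := by
  constructor
  · rintro ⟨col, hcol⟩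
    refine ⟨fun i j => col (Sum.inl (nm C i j (0, 10))), fun i j => col (Sum.inl (nm C i j (10, 0))),
      fun i hi j hj => ?_⟩
    have := cell_rel hty (col := fun w => col (Sum.inl w)) (good_main hcol)
      (fun e he => good_link (skel hty) hcol he) hi hj
    rw [nm_east, nm_south] at this
    exact this
  · rintro ⟨h, v, hS⟩
    exact ⟨_, good_extend (skel hty) (gc_good hty hS) (gc_link hty hS)⟩

end

end Pool.Agent.R538.PC
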