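import Mathlib
import Pool.Agent.R538.PC.Grid2
import Pool.Agent.NPC.Sat

/-!
The grid of tiles of a formula.
-/

set_option autoImplicit false

namespace Pool.Agent.R538.PC

open Pool.Agent.NPC

/-- clauses with three literals -/
abbrev Cl : Type := Lit ℕ × Lit ℕ × Lit ℕ

/-- the columns of the grid: sign and variable -/
def cols (φ : List Cl) : List (Bool × ℕ) :=
  φ.flatMap fun c =>
    [(c.1.1, c.1.2 + 1), (c.2.1.1, c.2.1.2 + 1), (c.2.2.1, c.2.2.2 + 1), (true, 0)]

/-- the sign of a column -/
def sg (L : List (Bool × ℕ)) (j : ℕ) : Bool := (L.getD j (true, 0)).1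
/-- the variable of a column -/
def va (L : List (Bool × ℕ)) (j : ℕ) : ℕ := (L.getD j (true, 0)).2

/-- the types of the tiles -/
def tyF (L : List (Bool × ℕ)) (i j : ℕ) : ℕ :=
  if i < L.length then
    if va L j ∈ (L.take i).map (fun p => p.2) then 1
    else if va L i = va L j then (if sg L j = true then 2 else 3)
    else 4
  else if i = L.length then
    (if j % 4 = 0 then 6 else if j % 4 = 1 then 8 else if j % 4 = 2 then 7 else 5)
  else (if j % 4 = 0 then 0 else if j % 4 = 1 then 6 else if j % 4 = 2 then 4 else 7)

theorem tyF_lt (L : List (Bool × ℕ)) (i j : ℕ) : tyF L i j < 9 := by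
  unfold tyF
  split_ifs <;> omega

theorem cols_cons (c : Cl) (φ : List Cl) : cols (c :: φ) =
    (c.1.1, c.1.2 + 1) :: (c.2.1.1, c.2.1.2 + 1) :: (c.2.2.1, c.2.2.2 + 1) :: (true, 0) ::
      cols φ := rfl

theorem cols_length (φ : List Cl) : (cols φ).length = 4 * φ.length := by
  induction φ with
  | nil => rfl
  | cons c φ ih =>
    rw [cols_cons]
    simp only [List.length_cons, ih]
    ring

theorem cols_at (φ : List Cl) (q : ℕ) (c : Cl) (h : φ[q]? = some c) :
    (cols φ).getD (4 * q) (true, 0) = (c.1.1, c.1.2 + 1) ∧
    (cols φ).getD (4 * q + 1) (true, 0) = (c.2.1.1, c.2.1.2 + 1) ∧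
    (cols φ).getD (4 * q + 2) (true, 0) = (c.2.2.1, c.2.2.2 + 1) ∧
    (cols φ).getD (4 * q + 3) (true, 0) = (true, 0) := by
  induction φ generalizing q with
  | nil => simp at h
  | cons d φ ih =>
    rw [cols_cons]
    match q with
    | 0 =>
      simp only [List.getElem?_cons_zero, Option.some.injEq] at h
      subst h
      exact ⟨rfl, rfl, rfl, rfl⟩
    | q + 1 =>
      simp only [List.getElem?_cons_succ] at h
      exact ih q h

theorem mem_take_map (L : List (Bool × ℕ)) (i x : ℕ) :
    x ∈ (L.take i).map (fun p => p.2) ↔ ∃ k < i, k < L.length ∧ va L k = x := by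
  constructor
  · intro h
    obtain ⟨p, hp, rfl⟩ := List.mem_map.1 h
    obtain ⟨k, hk, rfl⟩ := List.mem_iff_getElem.1 hp
    rw [List.length_take] at hk
    refine ⟨k, by omega, by omega, ?_⟩
    rw [va, List.getD_eq_getElem _ _ (by omega : k < L.length), List.getElem_take]
  · rintro ⟨k, hki, hkL, rfl⟩
    refine List.mem_map.2 ⟨L[k], List.mem_iff_getElem.2 ⟨k, by rw [List.length_take]; omega, ?_⟩, ?_⟩
    · rw [List.getElem_take]
    · rw [va, List.getD_eq_getElem _ _ hkL]

/-- the value of a literal -/
def lt (b y : Bool) : Bool := if b = true then y else !y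

theorem rel_ew {t : ℕ} (ht : t = 1 ∨ t = 2 ∨ t = 3 ∨ t = 4) {n e s w : Bool}
    (h : rel t n e s w = true) : e = w := by
  rcases ht with rfl | rfl | rfl | rfl
  all_goals
    revert h
    revert n e s w
    decide

theorem clause_sound (b1 b2 b3 x1 x2 x3 z : Bool)
    (h : rel 8 (lt b2 x2) (lt b3 x3) (lt true z) (lt b1 x1) = true) :
    xor x1 z = b1 ∨ xor x2 z = b2 ∨ xor x3 z = b3 := by
  revert b1 b2 b3 x1 x2 x3 z
  decide

theorem clause_complete (b1 b2 b3 x1 x2 x3 : Bool) (h : x1 = b1 ∨ x2 = b2 ∨ x3 = b3) :
    rel 8 (lt b2 x2) (lt b3 x3) false (lt b1 x1) = true := by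
  revert b1 b2 b3 x1 x2 x3
  decide

theorem sol_sat (φ : List Cl) :
    (∃ h v, Sol (tyF (cols φ)) ((cols φ).length + 2) (cols φ).length h v) ↔ SAT3 φ := by
  classical
  have hlen := cols_length φ
  set L := cols φ with hL
  constructor
  · rintro ⟨h, v, hS⟩
    have hrow : ∀ i < L.length, ∀ j ≤ L.length, h i j = h i 0 := by
      intro i hi j
      induction j with
      | zero => exact fun _ => rfl
      | succ j ih =>
        intro hj
        rw [← ih (by omega)]
        refine rel_ew ?_ (hS i (by omega) j (by omega))
        unfold tyF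
        rw [if_pos hi]
        split_ifs <;> simp
    let val : ℕ → Bool := fun x =>
      if hx : ∃ i, i < L.length ∧ va L i = x then h (Nat.find hx) 0 else false
    have hcol : ∀ j < L.length, v L.length j = lt (sg L j) (val (va L j)) := by
      intro j hj
      have hx : ∃ i, i < L.length ∧ va L i = va L j := ⟨j, hj, rfl⟩
      have hval : val (va L j) = h (Nat.find hx) 0 := dif_pos hx
      obtain ⟨h1, h2⟩ := Nat.find_spec hx
      have h3 : ∀ k < Nat.find hx, ¬ (k < L.length ∧ va L k = va L j) :=
        fun k hk => Nat.find_min hx hk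
      rw [hval]
      generalize Nat.find hx = i0 at h1 h2 h3
      have h4 : va L j ∉ (L.take i0).map (fun p => p.2) := by
        rw [mem_take_map]
        rintro ⟨k, hk, hkL, hv⟩
        exact h3 k hk ⟨hkL, hv⟩
      have h5 : v (i0 + 1) j = lt (sg L j) (h i0 0) := by
        have h6 := hS i0 (by omega) j hj
        unfold tyF at h6
        rw [if_pos h1, if_neg h4, if_pos h2] at h6
        rw [← hrow i0 h1 j hj.le]
        cases hs : sg L j with
        | true =>
          rw [hs, if_pos rfl] at h6
          simp only [rel] at h6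
          simp at h6
          simp [lt, h6.2]
        | false =>
          rw [hs, if_neg (by simp)] at h6
          simp only [rel] at h6
          simp at h6
          simp [lt, h6.2]
      have h6 : ∀ k, i0 + 1 ≤ k → k ≤ L.length → v k j = v (i0 + 1) j := by
        intro k hk
        induction k, hk using Nat.le_induction with
        | base => exact fun _ => rfl
        | succ k hk ih =>
          intro hkL
          rw [← ih (by omega)]
          have h7 := hS k (by omega) j hj
          unfold tyF at h7
          rw [if_pos (by omega), if_pos ((mem_take_map L k (va L j)).2 ⟨i0, by omega, h1, h2⟩)] at h7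
          simp [rel] at h7
          exact h7.1.symm
      rw [h6 L.length (by omega) le_rfl, h5]
    refine ⟨fun x => xor (val (x + 1)) (val 0), fun c hc => ?_⟩
    obtain ⟨q, hq⟩ := List.mem_iff_getElem?.1 hc
    have hqL : q < φ.length := by
      by_contra hcon
      rw [List.getElem?_eq_none (by omega)] at hq
      simp at hq
    obtain ⟨a0, a1, a2, a3⟩ := cols_at φ q c hq
    rw [← hL] at a0 a1 a2 a3
    have r0 := hS L.length (by omega) (4 * q) (by omega)
    have r1 := hS L.length (by omega) (4 * q + 1) (by omega)
    have r2 := hS L.length (by omega) (4 * q + 2) (by omega)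
    have r3 := hS L.length (by omega) (4 * q + 3) (by omega)
    have s1 := hS (L.length + 1) (by omega) (4 * q + 1) (by omega)
    have s2 := hS (L.length + 1) (by omega) (4 * q + 2) (by omega)
    have s3 := hS (L.length + 1) (by omega) (4 * q + 3) (by omega)
    have t0 : tyF L L.length (4 * q) = 6 := by
      unfold tyF; rw [if_neg (by omega), if_pos rfl, if_pos (by omega)]
    have t1 : tyF L L.length (4 * q + 1) = 8 := by
      unfold tyF; rw [if_neg (by omega), if_pos rfl, if_neg (by omega), if_pos (by omega)]
    have t2 : tyF L L.length (4 * q + 2) = 7 := by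
      unfold tyF
      rw [if_neg (by omega), if_pos rfl, if_neg (by omega), if_neg (by omega), if_pos (by omega)]
    have t3 : tyF L L.length (4 * q + 3) = 5 := by
      unfold tyF
      rw [if_neg (by omega), if_pos rfl, if_neg (by omega), if_neg (by omega), if_neg (by omega)]
    have u1 : tyF L (L.length + 1) (4 * q + 1) = 6 := by
      unfold tyF
      rw [if_neg (by omega), if_neg (by omega), if_neg (by omega), if_pos (by omega)]
    have u2 : tyF L (L.length + 1) (4 * q + 2) = 4 := by
      unfold tyF
      rw [if_neg (by omega), if_neg (by omega), if_neg (by omega), if_neg (by omega),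
        if_pos (by omega)]
    have u3 : tyF L (L.length + 1) (4 * q + 3) = 7 := by
      unfold tyF
      rw [if_neg (by omega), if_neg (by omega), if_neg (by omega), if_neg (by omega),
        if_neg (by omega)]
    rw [t0] at r0
    rw [t1] at r1
    rw [t2] at r2
    rw [t3] at r3
    rw [u1] at s1
    rw [u2] at s2
    rw [u3] at s3
    have r0' : v L.length (4 * q) = h L.length (4 * q + 1) := by simpa [rel] using r0
    have r2' : v L.length (4 * q + 2) = h L.length (4 * q + 2) := by simpa [rel] using r2
    have r3' : v L.length (4 * q + 3) = v (L.length + 1) (4 * q + 3) := by simpa [rel] using r3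
    have s1' : v (L.length + 1) (4 * q + 1) = h (L.length + 1) (4 * q + 1 + 1) := by
      simpa [rel] using s1
    have s2' : h (L.length + 1) (4 * q + 2 + 1) = h (L.length + 1) (4 * q + 2) := by
      simpa [rel] using s2
    have s3' : v (L.length + 1) (4 * q + 3) = h (L.length + 1) (4 * q + 3) := by
      simpa [rel] using s3
    have e1 : v (L.length + 1) (4 * q + 1) = v L.length (4 * q + 3) := by
      rw [s1', r3', s3', ← s2']
    have f0 := hcol (4 * q) (by omega)
    have f1 := hcol (4 * q + 1) (by omega)
    have f2 := hcol (4 * q + 2) (by omega)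
    have f3 := hcol (4 * q + 3) (by omega)
    rw [sg, va, a0] at f0
    rw [sg, va, a1] at f1
    rw [sg, va, a2] at f2
    rw [sg, va, a3] at f3
    change rel 8 (v L.length (4 * q + 1)) (h L.length (4 * q + 2)) (v (L.length + 1) (4 * q + 1))
      (h L.length (4 * q + 1)) = true at r1
    rw [e1, ← r0', ← r2', f0, f1, f2, f3] at r1
    exact clause_sound _ _ _ _ _ _ _ r1
  · rintro ⟨τ, hτ⟩
    let val : ℕ → Bool := fun x => match x with
      | 0 => false
      | x + 1 => τ x
    let lit : ℕ → Bool := fun j => lt (sg L j) (val (va L j))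
    refine ⟨fun i j => if i < L.length then val (va L i) else if i = L.length then
      (if j % 4 = 1 then lit (j - 1) else lit j) else false,
      fun i j => if i ≤ L.length then lit j else false, fun i hi j hj => ?_⟩
    obtain ⟨q, hq⟩ : ∃ q, q = j / 4 := ⟨_, rfl⟩
    have hqφ : q < φ.length := by omega
    obtain ⟨a0, a1, a2, a3⟩ := cols_at φ q φ[q] (List.getElem?_eq_getElem hqφ)
    rw [← hL] at a0 a1 a2 a3
    rcases lt_trichotomy i L.length with h1 | h1 | h1
    · simp only [if_pos h1, if_pos h1.le, if_pos (show i + 1 ≤ L.length by omega)]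
      unfold tyF
      rw [if_pos h1]
      split_ifs with g1 g2 g3
      · simp [rel]
      · simp [rel, lit, lt, g2, g3]
      · simp [rel, lit, lt, g2, g3]
      · simp [rel]
    · subst h1
      simp only [lt_irrefl, if_false, if_true, le_refl,
        if_neg (show ¬ L.length + 1 ≤ L.length by omega)]
      unfold tyF
      rw [if_neg (lt_irrefl _), if_pos rfl]
      split_ifs with g1 g2 g3 g4 g5 g6 g7 g8 g9 <;> try omega
      · simp [rel]
      · have ej : j = 4 * q + 1 := by omega
        have hc := hτ _ (List.getElem_mem hqφ)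
        have l0 : lit (j - 1) = lt φ[q].1.1 (τ φ[q].1.2) := by
          simp only [lit, sg, va]
          rw [show j - 1 = 4 * q by omega, a0]
        have l1 : lit j = lt φ[q].2.1.1 (τ φ[q].2.1.2) := by
          simp only [lit, sg, va]
          rw [ej, a1]
        have l2 : lit (j + 1) = lt φ[q].2.2.1 (τ φ[q].2.2.2) := by
          simp only [lit, sg, va]
          rw [ej, show 4 * q + 1 + 1 = 4 * q + 2 by omega, a2]
        rw [l0, l1, l2]
        exact clause_complete _ _ _ _ _ _ hc
      · simp [rel]
      · have ej : j = 4 * q + 3 := by omega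
        have l3 : lit j = false := by
          simp only [lit, sg, va]
          rw [ej, a3]
          rfl
        simp [rel, l3]
    · have h2 : i = L.length + 1 := by omega
      subst h2
      simp only [if_neg (show ¬ L.length + 1 < L.length by omega),
        if_neg (show ¬ L.length + 1 = L.length by omega),
        if_neg (show ¬ L.length + 1 ≤ L.length by omega),
        if_neg (show ¬ L.length + 1 + 1 ≤ L.length by omega)]
      unfold tyF
      rw [if_neg (by omega), if_neg (by omega)]
      split_ifs <;> simp [rel]

end Pool.Agent.R538.PC
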