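import Mathlib
import Pool.Agent.R538.PC.Formula
import Pool.Agent.R538.MS.Build

/-!
The graph on `Fin n` and its properties.
-/

set_option autoImplicit false

namespace Pool.Agent.R538.PC

open Pool.Agent.NPC Pool.Agent.R550.GB Pool.Agent.R538.MS Pool.Agent.R50.PlanarCograph

instance decXV : DecidableEq XV := inferInstance
instance decXVP : DecidableEq (XV × XV) := inferInstance

/-! ### Cographs -/

/-- `G` has a straight line drawing in the plane without crossings: `p` is injective, no vertex lies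
on an edge of which it is not an end, and two different edges have no common point other than the
position of a vertex. -/
def IsPlanar {V : Type} (G : SimpleGraph V) : Prop :=
  ∃ p : V → ℝ × ℝ, Function.Injective p ∧
    (∀ a b z, G.Adj a b → p z ∈ segment ℝ (p a) (p b) → z = a ∨ z = b) ∧
    ∀ a b x y, G.Adj a b → G.Adj x y → s(a, b) ≠ s(x, y) →
      ∀ q, q ∈ segment ℝ (p a) (p b) → q ∈ segment ℝ (p x) (p y) → ∃ z, q = p z

/-- A cograph: a graph without induced path on four vertices. -/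
def IsCograph {V : Type} (G : SimpleGraph V) : Prop :=
  ¬ (SimpleGraph.pathGraph 4).IsIndContained G

/-- The c-chromatic number: the least `k` such that the vertex set can be partitioned into `k`
(possibly empty) sets each of which induces a cograph. -/
noncomputable def cChromaticNumber {V : Type} (G : SimpleGraph V) : ℕ :=
  sInf {k : ℕ | ∃ f : V → Fin k, ∀ i, IsCograph (G.induce (f ⁻¹' {i}))}

theorem isCograph_iff {V : Type} (G : SimpleGraph V) :
    IsCograph G ↔ ∀ a b c d, ¬ IP4 G.Adj a b c d := by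
  constructor
  · rintro hG a b c d ⟨h1, h2, h3, h4, h5, h6, h7, h8, h9⟩
    apply hG
    let q : Fin 4 → V := ![a, b, c, d]
    have hadj : ∀ i j : Fin 4, G.Adj (q i) (q j) ↔ (SimpleGraph.pathGraph 4).Adj i j := by
      intro i j
      rw [SimpleGraph.pathGraph_adj]
      have s1 := h1.symm
      have s2 := h2.symm
      have s3 := h3.symm
      have s4 : ¬ G.Adj c a := fun h => h4 h.symm
      have s5 : ¬ G.Adj d a := fun h => h5 h.symm
      have s6 : ¬ G.Adj d b := fun h => h6 h.symm
      fin_cases i <;> fin_cases j <;>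
        simp [q, h1, h2, h3, h4, h5, h6, s1, s2, s3, s4, s5, s6]
    have hinj : Function.Injective q := by
      have nab := h1.ne
      have nbc := h2.ne
      have ncd := h3.ne
      intro i j hij
      fin_cases i <;> fin_cases j <;> simp_all [q]
    exact ⟨⟨⟨q, hinj⟩, fun {i j} => hadj i j⟩⟩
  · rintro h ⟨e⟩
    have hadj : ∀ i j : Fin 4, G.Adj (e i) (e j) ↔ (SimpleGraph.pathGraph 4).Adj i j :=
      fun i j => e.map_rel_iff
    refine h (e 0) (e 1) (e 2) (e 3) ⟨?_, ?_, ?_, ?_, ?_, ?_, ?_, ?_, ?_⟩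
    · rw [hadj, SimpleGraph.pathGraph_adj]; decide
    · rw [hadj, SimpleGraph.pathGraph_adj]; decide
    · rw [hadj, SimpleGraph.pathGraph_adj]; decide
    · rw [hadj, SimpleGraph.pathGraph_adj]; decide
    · rw [hadj, SimpleGraph.pathGraph_adj]; decide
    · rw [hadj, SimpleGraph.pathGraph_adj]; decide
    · exact fun h => absurd (e.injective h) (by decide)
    · exact fun h => absurd (e.injective h) (by decide)
    · exact fun h => absurd (e.injective h) (by decide)

theorem induce_iff {V : Type} (G : SimpleGraph V) (S : Set V) :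
    IsCograph (G.induce S) ↔ ∀ a ∈ S, ∀ b ∈ S, ∀ c ∈ S, ∀ d ∈ S, ¬ IP4 G.Adj a b c d := by
  rw [isCograph_iff]
  constructor
  · rintro h a ha b hb c hc d hd ⟨h1, h2, h3, h4, h5, h6, h7, h8, h9⟩
    exact h ⟨a, ha⟩ ⟨b, hb⟩ ⟨c, hc⟩ ⟨d, hd⟩ ⟨h1, h2, h3, h4, h5, h6,
      fun h => h7 (congrArg Subtype.val h), fun h => h8 (congrArg Subtype.val h),
      fun h => h9 (congrArg Subtype.val h)⟩
  · rintro h ⟨a, ha⟩ ⟨b, hb⟩ ⟨c, hc⟩ ⟨d, hd⟩ ⟨h1, h2, h3, h4, h5, h6, h7, h8, h9⟩
    exact h a ha b hb c hc d hd ⟨h1, h2, h3, h4, h5, h6, fun h => h7 (Subtype.ext h),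
      fun h => h8 (Subtype.ext h), fun h => h9 (Subtype.ext h)⟩

theorem cc_two {V : Type} (G : SimpleGraph V) (hP : ∃ a b c d, IP4 G.Adj a b c d) :
    cChromaticNumber G = 2 ↔ ∃ col : V → Bool, Good G.Adj col := by
  obtain ⟨a, b, c, d, hP⟩ := hP
  have h01 : ∀ k, k < 2 → k ∉ {k : ℕ | ∃ f : V → Fin k, ∀ i, IsCograph (G.induce (f ⁻¹' {i}))} := by
    rintro k hk ⟨f, hf⟩
    have key : ∀ x y : Fin k, x = y := by
      intro x y
      ext
      have := x.2
      have := y.2
      omega
    refine (induce_iff G _).1 (hf (f a)) a rfl b ?_ c ?_ d ?_ hP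
    · exact key _ _
    · exact key _ _
    · exact key _ _
  have h2 : 2 ∈ {k : ℕ | ∃ f : V → Fin k, ∀ i, IsCograph (G.induce (f ⁻¹' {i}))} ↔
      ∃ col : V → Bool, Good G.Adj col := by
    constructor
    · rintro ⟨f, hf⟩
      refine ⟨fun v => decide (f v = 0), ?_⟩
      rintro x y z w h ⟨c1, c2, c3⟩
      have key : ∀ s t : Fin 2, decide (s = 0) = decide (t = 0) → s = t := by decide
      have e1 := key _ _ c1
      have e2 := key _ _ c2
      have e3 := key _ _ c3
      exact (induce_iff G _).1 (hf (f x)) x rfl y e1.symm z (e1.trans e2).symm w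
        (e1.trans (e2.trans e3)).symm h
    · rintro ⟨col, hcol⟩
      refine ⟨fun v => if col v = true then 0 else 1, fun i => ?_⟩
      rw [induce_iff]
      intro x hx y hy z hz w hw h
      have key : ∀ s t : Bool, (if s = true then (0 : Fin 2) else 1) =
        (if t = true then (0 : Fin 2) else 1) → s = t := by decide
      simp only [Set.mem_preimage, Set.mem_singleton_iff] at hx hy hz hw
      exact hcol x y z w h ⟨key _ _ (hx.trans hy.symm), key _ _ (hy.trans hz.symm),
        key _ _ (hz.trans hw.symm)⟩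
  rw [← h2, cChromaticNumber]
  generalize {k : ℕ | ∃ f : V → Fin k, ∀ i, IsCograph (G.induce (f ⁻¹' {i}))} = S at h01
  constructor
  · intro h
    have hne : S.Nonempty := by
      by_contra hcon
      rw [Set.not_nonempty_iff_eq_empty] at hcon
      rw [hcon, Nat.sInf_empty] at h
      omega
    have := Nat.sInf_mem hne
    rwa [h] at this
  · intro h
    have h3 := Nat.sInf_mem (⟨2, h⟩ : S.Nonempty)
    have h4 := Nat.sInf_le h
    by_contra hcon
    exact h01 _ (by omega) h3

/-! ### The graph -/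

/-- the vertices of the expanded graph -/
def vs (RE LE : List (ℕ × ℕ)) (N : ℕ) : List XV :=
  ((List.range N).filter fun w =>
    (RE ++ LE).any fun e => decide (e.1 = w) || decide (e.2 = w)).map Sum.inl ++
  (((List.range N ×ˢ List.range N) ×ˢ List.range 17).filter fun x => decide (x.1 ∈ LE)).map
    Sum.inr

/-- the adjacency lists of the expanded graph -/
def gA (RE LE : List (ℕ × ℕ)) (N : ℕ) : List (List ℕ) :=
  mkA (vs RE LE N) fun x y => (xE RE LE).any fun e => decide (e = (x, y))

theorem nodup_vs (RE LE : List (ℕ × ℕ)) (N : ℕ) : (vs RE LE N).Nodup := by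
  unfold vs
  rw [List.nodup_append]
  refine ⟨List.Nodup.map Sum.inl_injective (List.Nodup.filter _ List.nodup_range),
    List.Nodup.map Sum.inr_injective (List.Nodup.filter _ (List.Nodup.product
      (List.Nodup.product List.nodup_range List.nodup_range) List.nodup_range)), ?_⟩
  intro x hx y hy hxy
  obtain ⟨a, -, rfl⟩ := List.mem_map.1 hx
  obtain ⟨b, -, rfl⟩ := List.mem_map.1 hy
  exact absurd hxy (by simp)

theorem mem_vs {RE LE : List (ℕ × ℕ)} {N : ℕ} {p : ℕ → ℝ × ℝ} (_hS : PSkel RE LE p)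
    (hN : ∀ e ∈ RE ++ LE, e.1 < N ∧ e.2 < N) (x : XV) : x ∈ vs RE LE N ↔ XVtx RE LE x := by
  unfold vs
  rw [List.mem_append, List.mem_map, List.mem_map]
  constructor
  · rintro (⟨w, hw, rfl⟩ | ⟨⟨e, k⟩, hw, rfl⟩)
    · rw [List.mem_filter, List.any_eq_true] at hw
      obtain ⟨-, e, he, hw⟩ := hw
      rw [Bool.or_eq_true, decide_eq_true_eq, decide_eq_true_eq] at hw
      rcases List.mem_append.1 he with h | h
      · refine ⟨(Sum.inl e.1, Sum.inl e.2), mem_xE.2 (Or.inl ⟨e, h, rfl⟩), ?_⟩
        rcases hw with rfl | rfl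
        · exact Or.inl rfl
        · exact Or.inr rfl
      · rcases hw with rfl | rfl
        · exact ⟨(emb e 0, emb e 2), mem_xE.2 (Or.inr ⟨e, h, (0, 2), by decide, rfl⟩), Or.inl rfl⟩
        · exact ⟨(emb e 1, emb e 2), mem_xE.2 (Or.inr ⟨e, h, (1, 2), by decide, rfl⟩), Or.inl rfl⟩
    · rw [List.mem_filter, decide_eq_true_eq] at hw
      obtain ⟨h1, h2⟩ := hw
      have hk : k < 17 := by
        have := (List.mem_product.1 h1).2
        rwa [List.mem_range] at this
      have h3 := all_range g_has (k + 2) (by omega)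
      rw [List.any_eq_true] at h3
      obtain ⟨g, hg, h3⟩ := h3
      simp only [Bool.or_eq_true, beq_iff_eq] at h3
      refine ⟨(emb e g.1, emb e g.2), mem_xE.2 (Or.inr ⟨e, h2, g, hg, rfl⟩), ?_⟩
      rcases h3 with h3 | h3
      · left; rw [← h3, emb_add]
      · right; rw [← h3, emb_add]
  · intro h
    match x, h with
    | Sum.inl w, h =>
      obtain ⟨e, he, hw⟩ := inl_vtx h
      left
      refine ⟨w, ?_, rfl⟩
      rw [List.mem_filter, List.any_eq_true, List.mem_range]
      refine ⟨?_, e, he, ?_⟩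
      · have := hN e he
        rcases hw with rfl | rfl
        · exact this.1
        · exact this.2
      · rw [Bool.or_eq_true, decide_eq_true_eq, decide_eq_true_eq]
        rcases hw with rfl | rfl
        · exact Or.inl rfl
        · exact Or.inr rfl
    | Sum.inr (e, k), h =>
      obtain ⟨he, hk⟩ := inr_vtx h
      right
      refine ⟨(e, k), ?_, rfl⟩
      have := hN e (List.mem_append_right _ he)
      rw [List.mem_filter, decide_eq_true_eq]
      refine ⟨List.mem_product.2 ⟨?_, List.mem_range.2 (by omega)⟩, he⟩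
      exact List.mem_product.2 ⟨List.mem_range.2 this.1, List.mem_range.2 this.2⟩

section

variable {RE LE : List (ℕ × ℕ)} {N : ℕ} {p : ℕ → ℝ × ℝ} (hS : PSkel RE LE p)
    (hN : ∀ e ∈ RE ++ LE, e.1 < N ∧ e.2 < N)
    (ht : ∀ a b c, LAdj RE a b → LAdj RE a c → LAdj RE b c → False)

include hS hN ht

theorem exists_lab : ∃ lab : Fin (gA RE LE N).length → XV, Function.Injective lab ∧
    (∀ v, XVtx RE LE (lab v)) ∧ (∀ x, XVtx RE LE x → ∃ v, lab v = x) ∧
    ∀ u v, (graph (gA RE LE N)).Adj u v ↔ LAdj (xE RE LE) (lab u) (lab v) := by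
  obtain ⟨lab, h1, h2, h3, h4⟩ := exists_labA (nodup_vs RE LE N)
    (fun x y => (xE RE LE).any fun e => decide (e = (x, y)))
  refine ⟨lab, h1, fun v => (mem_vs hS hN _).1 (h2 v), fun x hx => h3 x ((mem_vs hS hN _).2 hx),
    fun u v => ?_⟩
  refine (h4 u v).trans ?_
  have hany : ∀ x y : XV, ((xE RE LE).any fun e => decide (e = (x, y))) = true ↔
      (x, y) ∈ xE RE LE := by
    intro x y
    rw [List.any_eq_true]
    simp only [decide_eq_true_eq, exists_eq_right]
  simp only [hany]
  constructor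
  · exact fun h => h.2
  · refine fun h => ⟨?_, h⟩
    rintro rfl
    exact x_noTri hS.toSkel ht _ _ _ h h h

theorem gA_planar : IsPlanar (graph (gA RE LE N)) := by
  obtain ⟨lab, h1, h2, h3, h4⟩ := exists_lab hS hN ht
  obtain ⟨ε, hε, hth⟩ := exists_eps hS
  refine ⟨fun v => px p ε (lab v), ?_, ?_, ?_⟩
  · intro u v huv
    exact h1 (px_inj hS hε hth (h2 u) (h2 v) huv)
  · intro a b z hab hz
    rw [h4] at hab
    rcases hab with hab | hab
    · rcases x_vertex hS hε hth hab (h2 z) hz with h | h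
      · exact Or.inl (h1 h)
      · exact Or.inr (h1 h)
    · rw [segment_symm] at hz
      rcases x_vertex hS hε hth hab (h2 z) hz with h | h
      · exact Or.inr (h1 h)
      · exact Or.inl (h1 h)
  · intro a b x y hab hxy hne q hq hq'
    rw [h4] at hab hxy
    have key : ∀ a b, LAdj (xE RE LE) (lab a) (lab b) → ∀ q,
        q ∈ segment ℝ (px p ε (lab a)) (px p ε (lab b)) → ∃ E ∈ xE RE LE,
          (E = (lab a, lab b) ∨ E = (lab b, lab a)) ∧ q ∈ segment ℝ (px p ε E.1) (px p ε E.2) := by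
      intro a b hab q hq
      rcases hab with hab | hab
      · exact ⟨_, hab, Or.inl rfl, hq⟩
      · rw [segment_symm] at hq
        exact ⟨_, hab, Or.inr rfl, hq⟩
    obtain ⟨E, hE, hEab, hqE⟩ := key a b hab q hq
    obtain ⟨E', hE', hExy, hqE'⟩ := key x y hxy q hq'
    have hne' : E ≠ E' := by
      rintro rfl
      apply hne
      rcases hEab with rfl | rfl
      · rcases hExy with h | h
        · rw [h1 (congrArg Prod.fst h), h1 (congrArg Prod.snd h)]
        · rw [h1 (congrArg Prod.fst h), h1 (congrArg Prod.snd h), Sym2.eq_swap]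
      · rcases hExy with h | h
        · rw [h1 (congrArg Prod.fst h), h1 (congrArg Prod.snd h), Sym2.eq_swap]
        · rw [h1 (congrArg Prod.fst h), h1 (congrArg Prod.snd h)]
    obtain ⟨h5, -⟩ := x_inter hS hε hth hE hE' hne' hqE hqE'
    rcases hEab with rfl | rfl
    · rcases h5 with h5 | h5
      · exact ⟨a, h5⟩
      · exact ⟨b, h5⟩
    · rcases h5 with h5 | h5
      · exact ⟨b, h5⟩
      · exact ⟨a, h5⟩

theorem gA_noTri : (graph (gA RE LE N)).CliqueFree 3 := by
  obtain ⟨lab, h1, h2, h3, h4⟩ := exists_lab hS hN ht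
  intro s hs
  rw [SimpleGraph.is3Clique_iff] at hs
  obtain ⟨a, b, c, hab, hac, hbc, -⟩ := hs
  rw [h4] at hab hac hbc
  exact x_noTri hS.toSkel ht _ _ _ hab hac hbc

theorem gA_two (hne : LE ≠ []) : cChromaticNumber (graph (gA RE LE N)) = 2 ↔
    ∃ col, Good (LAdj (xE RE LE)) col := by
  classical
  obtain ⟨lab, h1, h2, h3, h4⟩ := exists_lab hS hN ht
  have htr : ∀ x y z w, IP4 (LAdj (xE RE LE)) x y z w → ∃ a b c d, lab a = x ∧ lab b = y ∧
      lab c = z ∧ lab d = w ∧ IP4 (graph (gA RE LE N)).Adj a b c d := by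
    rintro x y z w ⟨g1, g2, g3, g4, g5, g6, g7, g8, g9⟩
    have hv : ∀ x y, LAdj (xE RE LE) x y → XVtx RE LE x := by
      rintro x y (h | h)
      · exact ⟨_, h, Or.inl rfl⟩
      · exact ⟨_, h, Or.inr rfl⟩
    obtain ⟨a, rfl⟩ := h3 x (hv _ _ g1)
    obtain ⟨b, rfl⟩ := h3 y (hv _ _ g2)
    obtain ⟨c, rfl⟩ := h3 z (hv _ _ g3)
    obtain ⟨d, rfl⟩ := h3 w (hv _ _ g3.symm)
    refine ⟨a, b, c, d, rfl, rfl, rfl, rfl, ?_⟩
    rw [IP4, h4, h4, h4, h4, h4, h4]
    exact ⟨g1, g2, g3, g4, g5, g6, fun h => g7 (by rw [h]), fun h => g8 (by rw [h]),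
      fun h => g9 (by rw [h])⟩
  rw [cc_two]
  · constructor
    · rintro ⟨col, hcol⟩
      refine ⟨fun x => if h : ∃ v, lab v = x then col h.choose else false, ?_⟩
      have hc : ∀ v, (fun x => if h : ∃ v, lab v = x then col h.choose else false) (lab v) =
          col v := by
        intro v
        have h : ∃ u, lab u = lab v := ⟨v, rfl⟩
        simp only
        rw [dif_pos h, h1 h.choose_spec]
      intro x y z w hI
      obtain ⟨a, b, c, d, rfl, rfl, rfl, rfl, h5⟩ := htr _ _ _ _ hI
      rw [hc, hc, hc, hc]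
      exact hcol a b c d h5
    · rintro ⟨col, hcol⟩
      refine ⟨fun v => col (lab v), ?_⟩
      rintro a b c d ⟨g1, g2, g3, g4, g5, g6, g7, g8, g9⟩
      rw [h4] at g1 g2 g3 g4 g5 g6
      exact hcol _ _ _ _ ⟨g1, g2, g3, g4, g5, g6, fun h => g7 (h1 h), fun h => g8 (h1 h),
        fun h => g9 (h1 h)⟩
  · obtain ⟨e, he⟩ := List.exists_mem_of_ne_nil _ hne
    have hi := fun {i j : ℕ} (hi : i < 19) (hj : j < 19) => xadj_emb_iff hS.toSkel he hi hj
    have hn := fun {i j : ℕ} (h : emb e i = emb e j) => emb_inj (hS.ne e he) h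
    obtain ⟨a, b, c, d, -, -, -, -, h⟩ := htr (emb e 6) (emb e 7) (emb e 8) (emb e 9) (by
      refine ⟨(hi (by omega) (by omega)).2 (by decide), (hi (by omega) (by omega)).2 (by decide),
        (hi (by omega) (by omega)).2 (by decide), ?_, ?_, ?_, ?_, ?_, ?_⟩
      · rw [hi (by omega) (by omega)]; decide
      · rw [hi (by omega) (by omega)]; decide
      · rw [hi (by omega) (by omega)]; decide
      · exact fun h => absurd (hn h) (by decide)
      · exact fun h => absurd (hn h) (by decide)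
      · exact fun h => absurd (hn h) (by decide))
    exact ⟨a, b, c, d, h⟩

end

/-! ### The reduction -/

/-- the formula with an additional tautological clause -/
def padF (φ : List Cl) : List Cl := ((true, 0), (false, 0), (true, 0)) :: φ

theorem padF_sat (φ : List Cl) : SAT3 (padF φ) ↔ SAT3 φ := by
  constructor
  · rintro ⟨τ, h⟩
    exact ⟨τ, fun c hc => h c (List.mem_cons_of_mem _ hc)⟩
  · rintro ⟨τ, h⟩
    refine ⟨τ, fun c hc => ?_⟩
    rcases List.mem_cons.1 hc with rfl | hc
    · simp only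
      cases τ 0 <;> simp
    · exact h c hc

/-- the graph of a list of columns -/
def gL (L : List (Bool × ℕ)) : List (List ℕ) :=
  gA (RE (tyF L) (L.length + 2) L.length) (LE (tyF L) (L.length + 2) L.length)
    ((40 * L.length + 1) * (40 * (L.length + 2) + 1))

/-- the reduction -/
def redG (φ : List Cl) : List (List ℕ) := gL (cols (padF φ))

theorem gl_bound {ty : ℕ → ℕ → ℕ} (hty : ∀ i j, ty i j < 9) {R C : ℕ} :
    ∀ e ∈ RE ty R C ++ LE ty R C, e.1 < (40 * C + 1) * (40 * R + 1) ∧
      e.2 < (40 * C + 1) * (40 * R + 1) := by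
  have key : ∀ i j, i < R → j < C → ∀ p : Pt, p.1 ≤ 40 → p.2 ≤ 40 →
      idp (40 * C + 1) i j p < (40 * C + 1) * (40 * R + 1) := by
    intro i j hi hj p h1 h2
    have h3 : 40 * j + p.1 < 40 * C + 1 := by omega
    have h4 : 40 * i + p.2 + 1 ≤ 40 * R + 1 := by omega
    calc idp (40 * C + 1) i j p < (40 * C + 1) + (40 * C + 1) * (40 * i + p.2) := by
          rw [idp]; omega
      _ = (40 * C + 1) * (40 * i + p.2 + 1) := by ring
      _ ≤ _ := Nat.mul_le_mul le_rfl h4
  intro q hq
  obtain ⟨i, hi, j, hj, e, he, rfl⟩ : ∃ i < R, ∃ j < C, ∃ e ∈ tRE (ty i j) ++ tLE (ty i j),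
      q = (nm C i j e.1, nm C i j e.2) := by
    rcases List.mem_append.1 hq with h | h
    · obtain ⟨i, hi, j, hj, e, he, rfl⟩ := mem_gl.1 h
      exact ⟨i, hi, j, hj, e, List.mem_append_left _ he, rfl⟩
    · obtain ⟨i, hi, j, hj, e, he, rfl⟩ := mem_gl.1 h
      exact ⟨i, hi, j, hj, e, List.mem_append_right _ he, rfl⟩
  obtain ⟨a1, a2, -⟩ := t_all (hty i j) he
  exact ⟨key i j hi hj _ (le40 a1).1 (le40 a1).2, key i j hi hj _ (le40 a2).1 (le40 a2).2⟩

theorem redG_planar (φ : List Cl) : IsPlanar (graph (redG φ)) :=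
  gA_planar (pskel (tyF_lt _)) (gl_bound (tyF_lt _)) (re_noTri (tyF_lt _))

theorem redG_noTri (φ : List Cl) : (graph (redG φ)).CliqueFree 3 :=
  gA_noTri (pskel (tyF_lt _)) (gl_bound (tyF_lt _)) (re_noTri (tyF_lt _))

theorem redG_iff (φ : List Cl) : SAT3 φ ↔ cChromaticNumber (graph (redG φ)) = 2 := by
  rw [← padF_sat, ← sol_sat, ← good_iff (tyF_lt _)]
  have hlen : 0 < (cols (padF φ)).length := by
    rw [cols_length, padF, List.length_cons]
    omega
  refine (gA_two (pskel (tyF_lt _)) (gl_bound (tyF_lt _)) (re_noTri (tyF_lt _)) ?_).symm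
  set L := cols (padF φ) with hL
  have : (nm L.length L.length 0 (10, 0), nm L.length L.length 0 (40, 10)) ∈
      LE (tyF L) (L.length + 2) L.length := by
    refine mem_gl.2 ⟨L.length, by omega, 0, hlen, ((10, 0), (40, 10)), ?_, rfl⟩
    have : tyF L L.length 0 = 6 := by
      unfold tyF
      rw [if_neg (by omega), if_pos rfl, if_pos (by omega)]
    rw [this]
    decide
  exact List.ne_nil_of_mem this

end Pool.Agent.R538.PC
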