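import Mathlib
import Pool.Agent.R538.PC.Code
import Pool.Agent.H671R2.PolyAuto
import Pool.Agent.H673R2.HardOn

/-!
The reduction is computable in polynomial time.
-/

set_option autoImplicit false

namespace Pool.Agent.R538.PC

open Pool.Agent.NPC Pool.Agent.R550.GB Pool.Agent.R538.MS

theorem poly_tRE : NPC.Poly tRE := by
  unfold tRE
  fun_prop

theorem poly_tLE : NPC.Poly tLE := by
  unfold tLE
  fun_prop

theorem poly_emb : NPC.Poly (fun z : (ℕ × ℕ) × ℕ => emb z.1 z.2) := by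
  unfold emb
  fun_prop

theorem cond_eq (L : List (Bool × ℕ)) (i x : ℕ) :
    x ∈ (L.take i).map (fun p => p.2) ↔
      (L.zipIdx.any fun p => decide (p.2 < i) && decide (p.1.2 = x)) = true := by
  rw [mem_take_map, List.any_eq_true]
  constructor
  · rintro ⟨k, hk, hkL, rfl⟩
    refine ⟨(L[k], k), ?_, ?_⟩
    · rw [List.mem_zipIdx_iff_getElem?]
      exact List.getElem?_eq_getElem hkL
    · rw [va, List.getD_eq_getElem _ _ hkL]
      simp [hk]
  · rintro ⟨⟨p, k⟩, hp, hk⟩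
    rw [List.mem_zipIdx_iff_getElem?] at hp
    simp only at hp
    obtain ⟨hkL, h2⟩ := List.getElem?_eq_some_iff.1 hp
    simp only [Bool.and_eq_true, decide_eq_true_eq] at hk
    refine ⟨k, hk.1, hkL, ?_⟩
    rw [va, List.getD_eq_getElem _ _ hkL, h2]
    exact hk.2

theorem poly_tyF : NPC.Poly (fun z : List (Bool × ℕ) × (ℕ × ℕ) => tyF z.1 z.2.1 z.2.2) := by
  unfold tyF
  simp only [cond_eq]
  unfold va sg
  fun_prop

theorem poly_cols : NPC.Poly cols := by
  unfold cols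
  fun_prop

theorem u_len : UPoly (fun L : List (Bool × ℕ) => L.length) := UPoly.length NPC.Poly.id

/-- the pairs of a cell -/
def cellL (f : ℕ → List (Pt × Pt)) (L : List (Bool × ℕ)) (M i j : ℕ) : List (ℕ × ℕ) :=
  (f (tyF L i j)).map fun e => (idp M i j e.1, idp M i j e.2)

theorem poly_cell {f : ℕ → List (Pt × Pt)} (hf : NPC.Poly f) {M : List (Bool × ℕ) → ℕ}
    (hM : NPC.Poly M) :
    NPC.Poly (fun z : (List (Bool × ℕ) × ℕ) × ℕ => cellL f z.1.1 (M z.1.1) z.1.2 z.2) := by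
  have h3 : NPC.Poly (fun z : (List (Bool × ℕ) × ℕ) × ℕ => tyF z.1.1 z.1.2 z.2) :=
    poly_tyF.comp (f := fun z : (List (Bool × ℕ) × ℕ) × ℕ => (z.1.1, (z.1.2, z.2))) (by fun_prop)
  unfold cellL
  refine NPC.Poly.map (F := fun (z : (List (Bool × ℕ) × ℕ) × ℕ) e =>
    (idp (M z.1.1) z.1.2 z.2 e.1, idp (M z.1.1) z.1.2 z.2 e.2))
    (hf.comp h3) ?_
  unfold idp
  fun_prop

theorem poly_gl {f : ℕ → List (Pt × Pt)} (hf : NPC.Poly f) {R C M : List (Bool × ℕ) → ℕ}
    (hR : NPC.Poly (fun L => List.range (R L))) (hC : NPC.Poly (fun L => List.range (C L)))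
    (hM : NPC.Poly M) :
    NPC.Poly (fun L : List (Bool × ℕ) => gl f (tyF L) (R L) (C L) (M L)) := by
  change NPC.Poly (fun L : List (Bool × ℕ) => (List.range (R L)).flatMap fun i =>
    (List.range (C L)).flatMap fun j => cellL f L (M L) i j)
  refine NPC.Poly.flatMap (F := fun (L : List (Bool × ℕ)) i => (List.range (C L)).flatMap
    fun j => cellL f L (M L) i j) hR ?_
  refine NPC.Poly.flatMap (F := fun (z : List (Bool × ℕ) × ℕ) j => cellL f z.1 (M z.1) z.2 j)
    (hC.comp (NPC.Poly.fst NPC.Poly.id)) ?_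
  exact poly_cell hf hM

theorem poly_xE : NPC.Poly (fun z : List (ℕ × ℕ) × List (ℕ × ℕ) => xE z.1 z.2) := by
  unfold xE
  refine NPC.Poly.append ?_ ?_
  · refine NPC.Poly.map (F := fun (_ : List (ℕ × ℕ) × List (ℕ × ℕ)) (e : ℕ × ℕ) =>
      ((Sum.inl e.1, Sum.inl e.2) : XV × XV)) (NPC.Poly.fst NPC.Poly.id) (by fun_prop)
  · refine NPC.Poly.flatMap (F := fun (_ : List (ℕ × ℕ) × List (ℕ × ℕ)) (e : ℕ × ℕ) =>
      gE.map (fun g => (emb e g.1, emb e g.2))) (NPC.Poly.snd NPC.Poly.id) ?_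
    refine NPC.Poly.map (F := fun (z : (List (ℕ × ℕ) × List (ℕ × ℕ)) × (ℕ × ℕ)) (g : ℕ × ℕ) =>
      (emb z.2 g.1, emb z.2 g.2)) (NPC.Poly.const gE) ?_
    refine NPC.Poly.pair ?_ ?_
    · exact poly_emb.comp (f := fun z : ((List (ℕ × ℕ) × List (ℕ × ℕ)) × (ℕ × ℕ)) × (ℕ × ℕ) =>
        (z.1.2, z.2.1)) (by fun_prop)
    · exact poly_emb.comp (f := fun z : ((List (ℕ × ℕ) × List (ℕ × ℕ)) × (ℕ × ℕ)) × (ℕ × ℕ) =>
        (z.1.2, z.2.2)) (by fun_prop)

section

variable {α : Type} [TEnc α] {RE LE : α → List (ℕ × ℕ)} {N : α → ℕ}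

theorem poly_vs (h1 : NPC.Poly RE) (h2 : NPC.Poly LE) (hN : NPC.Poly (fun a => List.range (N a))) :
    NPC.Poly (fun a => vs (RE a) (LE a) (N a)) := by
  unfold vs
  refine NPC.Poly.append ?_ ?_
  · refine NPC.Poly.map (F := fun (_ : α) (w : ℕ) => (Sum.inl w : XV)) ?_ (by fun_prop)
    refine NPC.Poly.filter (p := fun (a : α) (w : ℕ) =>
      (RE a ++ LE a).any fun e => decide (e.1 = w) || decide (e.2 = w)) hN ?_
    have h3 : NPC.Poly (fun a => RE a ++ LE a) := h1.append h2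
    refine NPC.Poly.any (p := fun (z : α × ℕ) (e : ℕ × ℕ) => decide (e.1 = z.2) ||
      decide (e.2 = z.2)) (h3.comp (NPC.Poly.fst NPC.Poly.id)) (by fun_prop)
  · refine NPC.Poly.map (F := fun (_ : α) (w : (ℕ × ℕ) × ℕ) => (Sum.inr w : XV)) ?_ (by fun_prop)
    refine NPC.Poly.filter (p := fun (a : α) (x : (ℕ × ℕ) × ℕ) => decide (x.1 ∈ LE a)) ?_ ?_
    · fun_prop
    · fun_prop

theorem poly_gA (h1 : NPC.Poly RE) (h2 : NPC.Poly LE) (hN : NPC.Poly (fun a => List.range (N a))) :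
    NPC.Poly (fun a => gA (RE a) (LE a) (N a)) := by
  unfold gA
  refine poly_mkA (poly_vs h1 h2 hN) ?_
  have h3 : NPC.Poly (fun a => xE (RE a) (LE a)) := poly_xE.comp (NPC.Poly.pair h1 h2)
  refine NPC.Poly.any (p := fun (z : (α × XV) × XV) (e : XV × XV) =>
    decide (e = (z.1.2, z.2))) (h3.comp (NPC.Poly.fst (NPC.Poly.fst NPC.Poly.id))) ?_
  fun_prop

end

theorem poly_gL : NPC.Poly gL := by
  have hN : UPoly (fun L : List (Bool × ℕ) =>
      (40 * L.length + 1) * (40 * (L.length + 2) + 1)) :=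
    (((UPoly.const 40).mul u_len).add (UPoly.const 1)).mul
      (((UPoly.const 40).mul (u_len.add (UPoly.const 2))).add (UPoly.const 1))
  have hM : NPC.Poly (fun L : List (Bool × ℕ) => 40 * L.length + 1) := by fun_prop
  have h1 := poly_gl poly_tRE (u_len.add (UPoly.const 2)).range u_len.range hM
  have h2 := poly_gl poly_tLE (u_len.add (UPoly.const 2)).range u_len.range hM
  exact poly_gA h1 h2 hN.range

theorem poly_redG : NPC.Poly redG := by
  have h1 := poly_cols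
  have h2 := poly_gL
  unfold redG padF
  fun_prop

/-- It is NP-hard to decide whether a planar triangle-free graph has c-chromatic number `2`. -/
theorem c_hard : Pool.Agent.H673R2.NPHardOn
    (fun A : List (List ℕ) => IsPlanar (graph A) ∧ (graph A).CliqueFree 3)
    (fun A => cChromaticNumber (graph A) = 2) :=
  Pool.Agent.H673R2.npHardOn_of hardI_SAT3.toHardPr poly_redG
    (fun φ _ => ⟨redG_planar φ, redG_noTri φ⟩) (fun φ _ => redG_iff φ)

end Pool.Agent.R538.PC
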